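import Pool.Agent.W2helper9.CT.Main

/-!
# The group generated by the class transpositions is finitely presented
-/

set_option autoImplicit false

namespace Pool.Agent.W2helper9.CT

open Function

/-- class transpositions whose moduli have only the prime factors `2` and those in `P`. -/
def CTset (P : Finset ℕ) : Set (Equiv.Perm ℤ) :=
  {σ : Equiv.Perm ℤ | ∃ r₁ m₁ r₂ m₂ : ℤ,
          0 < m₁ ∧ 0 < m₂ ∧ 0 ≤ r₁ ∧ r₁ < m₁ ∧ 0 ≤ r₂ ∧ r₂ < m₂ ∧
          (∀ k : ℤ, ¬ (k % m₁ = r₁ ∧ k % m₂ = r₂)) ∧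
          (∀ p ∈ Nat.primeFactors m₁.natAbs, p = 2 ∨ p ∈ P) ∧
          (∀ p ∈ Nat.primeFactors m₂.natAbs, p = 2 ∨ p ∈ P) ∧
          ∀ k : ℤ, σ k =
            if k % m₁ = r₁ then (m₂ * k + m₁ * r₂ - m₂ * r₁) / m₁
            else if k % m₂ = r₂ then (m₁ * k + m₂ * r₁ - m₁ * r₂) / m₂
            else k}

/-- one copy of the integers. -/
def iota : X 1 ≃ ℤ where
  toFun := fun z => z.2
  invFun := fun k => (0, k)
  left_inv := fun _ => Prod.ext (Subsingleton.elim _ _) rfl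
  right_inv := fun _ => rfl

/-- transport of permutations. -/
def Cc : Equiv.Perm (X 1) ≃* Equiv.Perm ℤ := iota.permCongrHom

lemma Cc_apply (g : Equiv.Perm (X 1)) (k : ℤ) : Cc g k = (g (0, k)).2 := rfl

lemma Cc_symm_apply (g : Equiv.Perm ℤ) (z : X 1) : Cc.symm g z = (0, g z.2) := rfl

lemma sm_iff {P : Finset ℕ} {m : ℕ} (hm : m ≠ 0) :
    (∀ p ∈ Nat.primeFactors m, p = 2 ∨ p ∈ P) ↔ Sm (insert 2 P) m := by
  constructor
  · intro h
    exact ⟨hm, fun p hp hd => Finset.mem_insert.2 (h p (Nat.mem_primeFactors.2 ⟨hp, hd, hm⟩))⟩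
  · intro h p hp
    have h1 := Nat.mem_primeFactors.1 hp
    exact Finset.mem_insert.1 (h.2 p h1.1 h1.2.1)

/-- a permutation of two pieces is a class transposition. -/
lemma swap_mem {P : Finset ℕ} (hL : ∀ q ∈ insert 2 P, q.Prime) {n : ℕ} (E : X n ≃ X 1) (hE : NM (insert 2 P) E)
    {i j : Fin n} (hij : i ≠ j) : Cc (E.symm.trans ((pm (Equiv.swap i j)).trans E)) ∈ CTset P := by
  obtain ⟨M₁, a0, a1, a2, a3⟩ := hE.cls' hL i
  obtain ⟨M₂, b0, b1, b2, b3⟩ := hE.cls' hL j
  have hr : ∀ i : Fin n, rt E i = 0 := fun _ => Subsingleton.elim _ _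
  rw [hr] at a3 b3
  have hM₁ : (0 : ℤ) < M₁ := by have := a2.1; omega
  have hM₂ : (0 : ℤ) < M₂ := by have := b2.1; omega
  have keyi : ∀ (k : ℤ), k % M₁ = off E i → (E.symm (0, k)) = (i, k / M₁) := by
    intro k hk
    rw [Equiv.symm_apply_eq, a3]
    refine Prod.ext rfl ?_
    simp only
    rw [← hk]
    exact (Int.mul_ediv_add_emod k M₁).symm
  have keyj : ∀ (k : ℤ), k % M₂ = off E j → (E.symm (0, k)) = (j, k / M₂) := by
    intro k hk
    rw [Equiv.symm_apply_eq, b3]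
    refine Prod.ext rfl ?_
    simp only
    rw [← hk]
    exact (Int.mul_ediv_add_emod k M₂).symm
  refine ⟨off E i, M₁, off E j, M₂, hM₁, hM₂, a0, a1, b0, b1, ?_, ?_, ?_, ?_⟩
  · rintro k ⟨h1, h2⟩
    have h3 := (keyi k h1).symm.trans (keyj k h2)
    exact hij (congrArg Prod.fst h3)
  · rw [Int.natAbs_natCast]
    exact (sm_iff a2.1).2 a2
  · rw [Int.natAbs_natCast]
    exact (sm_iff b2.1).2 b2
  · intro k
    rw [Cc_apply]
    simp only [Equiv.trans_apply]
    split_ifs with h1 h2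
    · rw [keyi k h1, pm_apply, Equiv.swap_apply_left, b3]
      simp only
      have h3 : k = M₁ * (k / M₁) + off E i := by rw [← h1]; exact (Int.mul_ediv_add_emod k M₁).symm
      have h4 : (M₂ : ℤ) * k + M₁ * off E j - M₂ * off E i = M₁ * (M₂ * (k / M₁) + off E j) := by
        conv_lhs => rw [h3]
        ring
      rw [h4, Int.mul_ediv_cancel_left _ hM₁.ne']
    · rw [keyj k h2, pm_apply, Equiv.swap_apply_right, a3]
      simp only
      have h3 : k = M₂ * (k / M₂) + off E j := by rw [← h2]; exact (Int.mul_ediv_add_emod k M₂).symm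
      have h4 : (M₁ : ℤ) * k + M₂ * off E i - M₁ * off E j = M₂ * (M₁ * (k / M₂) + off E i) := by
        conv_lhs => rw [h3]
        ring
      rw [h4, Int.mul_ediv_cancel_left _ hM₂.ne']
    · have h3 : E ((E.symm (0, k)).1, (E.symm (0, k)).2) = (0, k) := by simp
      set a := (E.symm (0, k)).1 with ha
      have hai : a ≠ i := by
        intro h
        rw [h, a3] at h3
        apply h1
        have h4 := congrArg Prod.snd h3
        simp only at h4
        rw [← h4, Int.mul_add_emod_self_left]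
        exact Int.emod_eq_of_lt a0 a1
      have haj : a ≠ j := by
        intro h
        rw [h, b3] at h3
        apply h2
        have h4 := congrArg Prod.snd h3
        simp only at h4
        rw [← h4, Int.mul_add_emod_self_left]
        exact Int.emod_eq_of_lt b0 b1
      have h5 : (pm (Equiv.swap i j)) (E.symm (0, k)) = E.symm (0, k) := by
        change (pm (Equiv.swap i j)) ((E.symm (0, k)).1, (E.symm (0, k)).2) = _
        rw [pm_apply, ← ha, Equiv.swap_apply_of_ne_of_ne hai haj]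
      rw [h5, Equiv.apply_symm_apply]

lemma perm_mem {P : Finset ℕ} (hL : ∀ q ∈ insert 2 P, q.Prime) {n : ℕ} (E : X n ≃ X 1) (σ : Fin n ≃ Fin n)
    (hE : NM (insert 2 P) E) :
    E.symm.trans ((pm σ).trans E) ∈ (Subgroup.closure (CTset P)).comap Cc.toMonoidHom := by
  induction σ using Equiv.Perm.swap_induction_on with
  | one =>
    convert Subgroup.one_mem _ using 1
    exact Equiv.ext fun z => by
      change E (E.symm z) = z
      simp
  | swap_mul f i j hij ih =>
    have h1 : E.symm.trans ((pm (Equiv.swap i j)).trans E) ∈ (Subgroup.closure (CTset P)).comap Cc.toMonoidHom :=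
      Subgroup.subset_closure (swap_mem hL E hE hij)
    convert Subgroup.mul_mem _ h1 ih using 1
    exact Equiv.ext fun z => by
      rw [Equiv.Perm.mul_apply]
      simp only [Equiv.trans_apply, Equiv.symm_apply_apply]
      rfl

/-- a criterion for natural maps. -/
lemma nat_of {L : Finset ℕ} {N : ℕ} (g : X N ≃ X 1) (K : ℕ) (hK : Sm L K) (δ : ℤ → ℕ) (hδ : ∀ v, Sm L (δ v))
    (h : ∀ j, ∃ w : ℤ, 0 ≤ w ∧ w < K * δ (w % K) ∧ ∀ k, (g (j, k)).2 = K * (δ (w % K) * k) + w) : NM L g := by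
  obtain ⟨M, c, hc⟩ := exists_unif' (fun _ : Fin 1 => K) fun _ => Nat.pos_of_ne_zero hK.1
  have hK0 : (0 : ℤ) < K := by have := hK.1; omega
  have hr : ∀ i : Fin M, rt c i = 0 := fun _ => Subsingleton.elim _ _
  have hu : Unif (g.trans c.symm) (fun u => δ (off c u)) := by
    apply unif_of
    intro j
    obtain ⟨w, hw0, hw1, hw⟩ := h j
    have e1 := Int.emod_nonneg w hK0.ne'
    have e2 := Int.emod_lt_of_pos w hK0
    obtain ⟨u, -, hu⟩ := hc.surj 0 (w % K) e1 e2
    refine ⟨u, w / K, Int.ediv_nonneg hw0 hK0.le, ?_, fun k => ?_⟩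
    · rw [hu]
      apply Int.ediv_lt_of_lt_mul hK0
      rw [mul_comm]
      exact hw1
    · rw [Equiv.trans_apply, Equiv.symm_apply_eq, (hc u).2.2, hu]
      refine Prod.ext (Subsingleton.elim _ _) ?_
      rw [hw k]
      simp only
      have := Int.mul_ediv_add_emod w K
      linear_combination -this
  have h1 : NM L (g.trans c.symm) := MC.nm ⟨_, hu, fun u => hδ _⟩
  have h2 : NM L c := MC.nm ⟨_, hc, fun _ => hK⟩
  have h3 := h1.trans h2
  have h4 : (g.trans c.symm).trans c = g := Equiv.ext fun z => by simp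
  rwa [h4] at h3

/-- class transpositions are fractions. -/
lemma ct_mem {P : Finset ℕ} (hL : ∀ q ∈ insert 2 P, q.Prime) {σ : Equiv.Perm ℤ} (hσ : σ ∈ CTset P) :
    Cc.symm σ ∈ GG (insert 2 P) hL := by
  obtain ⟨r₁, m₁, r₂, m₂, hm₁, hm₂, hr₁, hr₁', hr₂, hr₂', hdis, hp₁, hp₂, hσ⟩ := hσ
  obtain ⟨M₁, rfl⟩ := Int.eq_ofNat_of_zero_le hm₁.le
  obtain ⟨M₂, rfl⟩ := Int.eq_ofNat_of_zero_le hm₂.le
  rw [Int.natAbs_natCast] at hp₁ hp₂
  have hs₁ : Sm (insert 2 P) M₁ := (sm_iff (by omega)).1 hp₁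
  have hs₂ : Sm (insert 2 P) M₂ := (sm_iff (by omega)).1 hp₂
  have hK : Sm (insert 2 P) (M₁ * M₂) := hs₁.mul hs₂
  have hKK : Sm (insert 2 P) ((M₁ * M₂) * (M₁ * M₂)) := hK.mul hK
  obtain ⟨N, E, hE⟩ := exists_unif' (fun _ : Fin 1 => (M₁ * M₂) * (M₁ * M₂)) fun _ => Nat.pos_of_ne_zero hKK.1
  have hEn : NM (insert 2 P) E := MC.nm ⟨_, hE, fun _ => hKK⟩
  have hKpos : (0 : ℤ) < (M₁ : ℤ) * M₂ := by positivity
  refine ⟨N, E, E.trans (Cc.symm σ), hEn, ?_, Equiv.ext fun z => by simp⟩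
  refine nat_of _ (M₁ * M₂) hK (fun v => if v % M₂ = r₂ then M₂ * M₂ else if v % M₁ = r₁ then M₁ * M₁
    else M₁ * M₂) (fun v => by
      split_ifs
      · exact hs₂.mul hs₂
      · exact hs₁.mul hs₁
      · exact hK) ?_
  intro j
  obtain ⟨g0, g1, g2⟩ := hE j
  have hval : ∀ k, ((E.trans (Cc.symm σ)) (j, k)).2 = σ ((M₁ : ℤ) * M₂ * (M₁ * M₂) * k + off E j) := by
    intro k
    rw [Equiv.trans_apply, g2, Cc_symm_apply]
    push_cast
    rfl
  set o := off E j with ho
  push_cast at g1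
  have hmod₁ : ∀ k : ℤ, ((M₁ : ℤ) * M₂ * (M₁ * M₂) * k + o) % M₁ = o % M₁ := by
    intro k
    have : (M₁ : ℤ) * M₂ * (M₁ * M₂) * k + o = M₁ * (M₂ * (M₁ * M₂) * k) + o := by ring
    rw [this, Int.mul_add_emod_self_left]
  have hmod₂ : ∀ k : ℤ, ((M₁ : ℤ) * M₂ * (M₁ * M₂) * k + o) % M₂ = o % M₂ := by
    intro k
    have : (M₁ : ℤ) * M₂ * (M₁ * M₂) * k + o = M₂ * (M₁ * (M₁ * M₂) * k) + o := by ring
    rw [this, Int.mul_add_emod_self_left]
  by_cases h1 : o % M₁ = r₁
  · have ho1 : o = M₁ * (o / M₁) + r₁ := by rw [← h1]; exact (Int.mul_ediv_add_emod o M₁).symm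
    set q := o / M₁ with hq
    have hq0 : 0 ≤ q := Int.ediv_nonneg g0 hm₁.le
    have hw2 : (M₂ * q + r₂) % ((M₁ * M₂ : ℕ) : ℤ) % M₂ = r₂ := by
      rw [Int.emod_emod_of_dvd _ (by push_cast; exact Dvd.intro_left _ rfl), Int.mul_add_emod_self_left]
      exact Int.emod_eq_of_lt hr₂ hr₂'
    refine ⟨M₂ * q + r₂, by positivity, ?_, fun k => ?_⟩
    · simp only [hw2, if_true]
      push_cast
      have h3 : q < M₂ * (M₁ * M₂) := by
        by_contra hcon
        push Not at hcon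
        nlinarith
      have h4 : q + 1 ≤ M₂ * (M₁ * M₂) := h3
      nlinarith
    · rw [hval, hσ, hmod₁, if_pos h1]
      simp only [hw2, if_true]
      have h4 : (M₂ : ℤ) * ((M₁ : ℤ) * M₂ * (M₁ * M₂) * k + o) + M₁ * r₂ - M₂ * r₁ =
          M₁ * (M₁ * M₂ * (M₂ * M₂ * k) + (M₂ * q + r₂)) := by
        conv_lhs => rw [ho1]
        ring
      rw [h4, Int.mul_ediv_cancel_left _ hm₁.ne']
      push_cast
      ring
  · by_cases h2 : o % M₂ = r₂
    · have ho1 : o = M₂ * (o / M₂) + r₂ := by rw [← h2]; exact (Int.mul_ediv_add_emod o M₂).symm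
      set q := o / M₂ with hq
      have hq0 : 0 ≤ q := Int.ediv_nonneg g0 hm₂.le
      have hw1 : (M₁ * q + r₁) % ((M₁ * M₂ : ℕ) : ℤ) % M₁ = r₁ := by
        rw [Int.emod_emod_of_dvd _ (by push_cast; exact Dvd.intro _ rfl), Int.mul_add_emod_self_left]
        exact Int.emod_eq_of_lt hr₁ hr₁'
      have hw2 : (M₁ * q + r₁) % ((M₁ * M₂ : ℕ) : ℤ) % M₂ ≠ r₂ := by
        intro h
        exact hdis _ ⟨hw1, h⟩
      refine ⟨M₁ * q + r₁, by positivity, ?_, fun k => ?_⟩
      · simp only [hw2, hw1, if_true, if_false]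
        push_cast
        have h3 : q < M₁ * (M₁ * M₂) := by
          by_contra hcon
          push Not at hcon
          nlinarith
        have h4 : q + 1 ≤ M₁ * (M₁ * M₂) := h3
        nlinarith
      · rw [hval, hσ, hmod₁, if_neg h1, hmod₂, if_pos h2]
        simp only [hw2, hw1, if_true, if_false]
        have h4 : (M₁ : ℤ) * ((M₁ : ℤ) * M₂ * (M₁ * M₂) * k + o) + M₂ * r₁ - M₁ * r₂ =
            M₂ * (M₁ * M₂ * (M₁ * M₁ * k) + (M₁ * q + r₁)) := by
          conv_lhs => rw [ho1]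
          ring
        rw [h4, Int.mul_ediv_cancel_left _ hm₂.ne']
        push_cast
        ring
    · have hw1 : o % ((M₁ * M₂ : ℕ) : ℤ) % M₁ ≠ r₁ := by
        rwa [Int.emod_emod_of_dvd _ (by push_cast; exact Dvd.intro _ rfl)]
      have hw2 : o % ((M₁ * M₂ : ℕ) : ℤ) % M₂ ≠ r₂ := by
        rwa [Int.emod_emod_of_dvd _ (by push_cast; exact Dvd.intro_left _ rfl)]
      refine ⟨o, g0, ?_, fun k => ?_⟩
      · simp only [hw2, hw1, if_false]
        push_cast
        exact g1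
      · rw [hval, hσ, hmod₁, if_neg h1, hmod₂, if_neg h2]
        simp only [hw2, hw1, if_false]
        push_cast
        ring

theorem closure_eq {P : Finset ℕ} (hL : ∀ q ∈ insert 2 P, q.Prime) :
    Subgroup.closure (CTset P) = (GG (insert 2 P) hL).map Cc.toMonoidHom := by
  apply le_antisymm
  · rw [Subgroup.closure_le]
    intro σ hσ
    exact ⟨Cc.symm σ, ct_mem hL hσ, by simp⟩
  · rw [Subgroup.map_le_iff_le_comap]
    exact GG_le _ (fun E σ hE => perm_mem hL E σ hE) hL (Finset.mem_insert_self _ _)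

/-- the group generated by the class transpositions is finitely presented. -/
theorem ct_fp {P : Finset ℕ} (hP : ∀ p ∈ P, p.Prime) : Group.IsFinitelyPresented (Subgroup.closure (CTset P)) := by
  have hL : ∀ q ∈ insert 2 P, q.Prime := by
    intro q hq
    rcases Finset.mem_insert.1 hq with rfl | h
    · exact Nat.prime_two
    · exact hP q h
  rw [closure_eq hL]
  have := GG_fp hL (Finset.mem_insert_self _ _)
  exact Group.IsFinitelyPresented.equiv ((GG (insert 2 P) hL).equivMapOfInjective _ Cc.injective)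

end Pool.Agent.W2helper9.CT
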