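import Mathlib

/-!
# Natural partitions: basic maps

`X n` is the disjoint union of `n` copies of the integers. Natural maps `X N ≃ X m` are the compositions of
relabellings and of the maps which glue `p` copies of the integers to one copy by Euclidean division by a prime `p`.
-/

set_option autoImplicit false

namespace Pool.Agent.W2helper9.CT

open Function

/-- `n` copies of the integers. -/
abbrev X (n : ℕ) := Fin n × ℤ

/-- relabelling. -/
def pm {n m : ℕ} (σ : Fin n ≃ Fin m) : X n ≃ X m := σ.prodCongr (Equiv.refl ℤ)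

@[simp] lemma pm_apply {n m : ℕ} (σ : Fin n ≃ Fin m) (j : Fin n) (k : ℤ) : pm σ (j, k) = (σ j, k) := rfl

lemma pm_trans {n m l : ℕ} (σ : Fin n ≃ Fin m) (τ : Fin m ≃ Fin l) :
    (pm σ).trans (pm τ) = pm (σ.trans τ) := rfl

lemma pm_symm {n m : ℕ} (σ : Fin n ≃ Fin m) : (pm σ).symm = pm σ.symm := rfl

lemma pm_refl (n : ℕ) : pm (Equiv.refl (Fin n)) = Equiv.refl (X n) := by
  ext x <;> rfl

/-- smooth numbers. -/
def Sm (L : Finset ℕ) (d : ℕ) : Prop := d ≠ 0 ∧ ∀ p : ℕ, p.Prime → p ∣ d → p ∈ L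

lemma Sm.one (L : Finset ℕ) : Sm L 1 :=
  ⟨one_ne_zero, fun _ hp h => absurd (Nat.dvd_one.1 h) hp.one_lt.ne'⟩

lemma Sm.mul {L : Finset ℕ} {a b : ℕ} (ha : Sm L a) (hb : Sm L b) : Sm L (a * b) :=
  ⟨mul_ne_zero ha.1 hb.1, fun p hp h => ((hp.dvd_mul).1 h).elim (ha.2 p hp) (hb.2 p hp)⟩

lemma Sm.of_dvd {L : Finset ℕ} {a b : ℕ} (hb : Sm L b) (h : a ∣ b) : Sm L a :=
  ⟨fun h0 => hb.1 (by subst h0; exact Nat.eq_zero_of_zero_dvd h), fun p hp hpa => hb.2 p hp (hpa.trans h)⟩

lemma Sm.lcm {L : Finset ℕ} {a b : ℕ} (ha : Sm L a) (hb : Sm L b) : Sm L (Nat.lcm a b) :=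
  (ha.mul hb).of_dvd (Nat.lcm_dvd_mul a b)

lemma Sm.div {L : Finset ℕ} {a b : ℕ} (ha : Sm L a) (h : b ∣ a) : Sm L (a / b) :=
  ha.of_dvd (Nat.div_dvd_of_dvd h)

lemma Sm.prime {L : Finset ℕ} {p : ℕ} (hL : ∀ q ∈ L, q.Prime) (hp : p ∈ L) : Sm L p :=
  ⟨(hL p hp).ne_zero, fun q hq h => by rwa [(Nat.prime_dvd_prime_iff_eq hq (hL p hp)).1 h]⟩

/-- the piece-index. -/
def rt {N m : ℕ} (f : X N ≃ X m) (j : Fin N) : Fin m := (f (j, 0)).1

/-- the offset. -/
def off {N m : ℕ} (f : X N ≃ X m) (j : Fin N) : ℤ := (f (j, 0)).2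

/-- uniform maps: over the root `i` all the pieces have modulus `d i`. -/
def Unif {N m : ℕ} (f : X N ≃ X m) (d : Fin m → ℕ) : Prop :=
  ∀ j, 0 ≤ off f j ∧ off f j < d (rt f j) ∧ ∀ k, f (j, k) = (rt f j, (d (rt f j) : ℤ) * k + off f j)

lemma unif_of {N m : ℕ} (f : X N ≃ X m) (d : Fin m → ℕ)
    (h : ∀ j, ∃ i, ∃ s : ℤ, 0 ≤ s ∧ s < d i ∧ ∀ k, f (j, k) = (i, (d i : ℤ) * k + s)) : Unif f d := by
  intro j
  obtain ⟨i, s, h0, h1, h2⟩ := h j
  have h3 : f (j, 0) = (i, s) := by rw [h2]; simp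
  have hr : rt f j = i := by rw [rt, h3]
  have ho : off f j = s := by rw [off, h3]
  rw [hr, ho]
  exact ⟨h0, h1, h2⟩

lemma Unif.pos {N m : ℕ} {f : X N ≃ X m} {d : Fin m → ℕ} (h : Unif f d) (i : Fin m) : 0 < d i := by
  have h1 := h (f.symm (i, 0)).1
  have h2 : f ((f.symm (i, 0)).1, (f.symm (i, 0)).2) = (i, 0) := by simp
  rw [h1.2.2] at h2
  have h3 := congrArg Prod.fst h2
  simp only at h3
  rw [h3] at h1
  have := h1.1.trans_lt h1.2.1
  exact_mod_cast this

lemma Unif.surj {N m : ℕ} {f : X N ≃ X m} {d : Fin m → ℕ} (h : Unif f d) (i : Fin m) (s : ℤ) (h0 : 0 ≤ s)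
    (h1 : s < d i) : ∃ j, rt f j = i ∧ off f j = s := by
  have h2 : f ((f.symm (i, s)).1, (f.symm (i, s)).2) = (i, s) := by simp
  set j := (f.symm (i, s)).1
  set k := (f.symm (i, s)).2
  obtain ⟨ha, hb, hc⟩ := h j
  rw [hc] at h2
  have h3 : rt f j = i := congrArg Prod.fst h2
  have h4 : (d (rt f j) : ℤ) * k + off f j = s := congrArg Prod.snd h2
  rw [h3] at h4 hb
  refine ⟨j, h3, ?_⟩
  have hk : k = 0 := by
    rcases lt_trichotomy k 0 with hk | hk | hk
    · nlinarith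
    · exact hk
    · nlinarith
  rw [hk] at h4
  linarith

lemma Unif.inj {N m : ℕ} {f : X N ≃ X m} {j j' : Fin N} (h : rt f j = rt f j') (h' : off f j = off f j') :
    j = j' := by
  have : f (j, 0) = f (j', 0) := Prod.ext h h'
  exact congrArg Prod.fst (f.injective this)

/-- the labels of the pieces of a uniform map. -/
noncomputable def Unif.lab {N m : ℕ} {f : X N ≃ X m} {d : Fin m → ℕ} (h : Unif f d) :
    Fin N ≃ (Σ i : Fin m, Fin (d i)) :=
  Equiv.ofBijective (fun j => ⟨rt f j, ⟨(off f j).toNat, by have := h j; omega⟩⟩) (by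
    constructor
    · intro j j' hjj
      simp only [Sigma.mk.injEq] at hjj
      obtain ⟨h1, h2⟩ := hjj
      refine Unif.inj h1 ?_
      have h3 : (off f j).toNat = (off f j').toNat := by
        rw [Fin.heq_ext_iff (by rw [h1])] at h2
        exact h2
      have h4 := (h j).1
      have h5 := (h j').1
      omega
    · rintro ⟨i, s⟩
      obtain ⟨j, h1, h2⟩ := h.surj i (s : ℤ) (by positivity) (by exact_mod_cast s.2)
      refine ⟨j, ?_⟩
      subst h1
      simp only [Sigma.mk.injEq, heq_eq_eq, true_and]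
      ext
      simp [h2])

lemma Unif.card {N m : ℕ} {f : X N ≃ X m} {d : Fin m → ℕ} (h : Unif f d) : N = ∑ i, d i := by
  have := Fintype.card_congr h.lab
  simpa using this

/-- existence of uniform maps. -/
lemma exists_unif {m : ℕ} (d : Fin m → ℕ) (hd : ∀ i, 0 < d i) : ∃ f : X (∑ i, d i) ≃ X m, Unif f d := by
  have key : ∀ i (t : ℤ), 0 ≤ t % d i ∧ t % d i < d i := fun i t =>
    ⟨Int.emod_nonneg _ (by have := hd i; omega), Int.emod_lt_of_pos _ (by have := hd i; omega)⟩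
  let g : (Σ i : Fin m, Fin (d i)) × ℤ ≃ X m :=
    { toFun := fun x => (x.1.1, (d x.1.1 : ℤ) * x.2 + (x.1.2 : ℕ))
      invFun := fun y => (⟨y.1, ⟨(y.2 % d y.1).toNat, by have := key y.1 y.2; omega⟩⟩, y.2 / d y.1)
      left_inv := by
        rintro ⟨⟨i, s⟩, k⟩
        have hs : ((s : ℕ) : ℤ) < d i := by exact_mod_cast s.2
        have hd' : (0 : ℤ) < d i := by exact_mod_cast hd i
        have h1 : ((d i : ℤ) * k + (s : ℕ)) % d i = (s : ℕ) := by
          rw [Int.mul_add_emod_self_left]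
          exact Int.emod_eq_of_lt (by positivity) hs
        have h2 : ((d i : ℤ) * k + (s : ℕ)) / d i = k := by
          rw [Int.mul_add_ediv_left _ _ hd'.ne', Int.ediv_eq_zero_of_lt (by positivity) hs, add_zero]
        refine Prod.ext (Sigma.ext rfl (heq_of_eq ?_)) h2
        ext
        simp [h1]
      right_inv := by
        rintro ⟨i, t⟩
        have h1 := key i t
        refine Prod.ext rfl ?_
        have h2 : (((t % (d i : ℤ)).toNat : ℕ) : ℤ) = t % d i := by omega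
        change (d i : ℤ) * (t / d i) + (((t % (d i : ℤ)).toNat : ℕ) : ℤ) = t
        rw [h2]
        exact Int.mul_ediv_add_emod t (d i) }
  refine ⟨((finSigmaFinEquiv.symm).prodCongr (Equiv.refl ℤ)).trans g, unif_of _ d fun j => ?_⟩
  refine ⟨(finSigmaFinEquiv.symm j).1, ((finSigmaFinEquiv.symm j).2 : ℕ), by positivity,
    by exact_mod_cast (finSigmaFinEquiv.symm j).2.2, fun k => rfl⟩

lemma exists_unif' {m : ℕ} (d : Fin m → ℕ) (hd : ∀ i, 0 < d i) : ∃ N, ∃ f : X N ≃ X m, Unif f d :=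
  ⟨_, exists_unif d hd⟩

/-- division of uniform maps. -/
lemma Unif.div {N M m : ℕ} {l : X N ≃ X m} {a : X M ≃ X m} {D d : Fin m → ℕ} (hl : Unif l D) (ha : Unif a d)
    (h : ∀ i, d i ∣ D i) : Unif (l.trans a.symm) (fun j => D (rt a j) / d (rt a j)) := by
  apply unif_of
  intro j
  obtain ⟨h0, h1, h2⟩ := hl j
  have hx : a ((a.symm (rt l j, off l j)).1, (a.symm (rt l j, off l j)).2) = (rt l j, off l j) := by simp
  set j' := (a.symm (rt l j, off l j)).1
  set s' := (a.symm (rt l j, off l j)).2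
  obtain ⟨g0, g1, g2⟩ := ha j'
  rw [g2] at hx
  obtain ⟨hr, hs⟩ := Prod.mk.inj hx
  have hdp : (0 : ℤ) < d (rt a j') := by exact_mod_cast ha.pos _
  obtain ⟨c, hc⟩ := h (rt a j')
  have hcd : D (rt a j') / d (rt a j') = c := by
    rw [hc]; exact Nat.mul_div_cancel_left _ (ha.pos _)
  have hDc : (D (rt l j) : ℤ) = d (rt a j') * c := by rw [← hr, hc]; push_cast; ring
  refine ⟨j', s', ?_, ?_, fun k => ?_⟩
  · by_contra hneg
    push Not at hneg
    nlinarith
  · rw [hcd]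
    rw [hDc] at h1
    nlinarith
  · rw [hcd]
    simp only [Equiv.trans_apply]
    rw [Equiv.symm_apply_eq, h2, g2, ← hr]
    ext
    · rfl
    · simp only
      rw [hr, hDc, ← hs]
      rw [hr]
      ring

/-- pieces of the inverse of a uniform map. -/
lemma Unif.symm_fst {N m : ℕ} {a : X N ≃ X m} {d : Fin m → ℕ} (ha : Unif a d) (i i' : Fin m) (t t' : ℤ) :
    (a.symm (i, t)).1 = (a.symm (i', t')).1 ↔ i = i' ∧ (d i : ℤ) ∣ t - t' := by
  have h1 : a ((a.symm (i, t)).1, (a.symm (i, t)).2) = (i, t) := by simp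
  have h2 : a ((a.symm (i', t')).1, (a.symm (i', t')).2) = (i', t') := by simp
  constructor
  · intro h
    rw [← h] at h2
    set j := (a.symm (i, t)).1
    rw [(ha j).2.2] at h1 h2
    have e1 : rt a j = i := congrArg Prod.fst h1
    have e2 : rt a j = i' := congrArg Prod.fst h2
    have e3 : (d (rt a j) : ℤ) * (a.symm (i, t)).2 + off a j = t := congrArg Prod.snd h1
    have e4 : (d (rt a j) : ℤ) * (a.symm (i', t')).2 + off a j = t' := congrArg Prod.snd h2
    refine ⟨e1.symm.trans e2, ?_⟩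
    rw [← e1, ← e3, ← e4]
    exact ⟨(a.symm (i, t)).2 - (a.symm (i', t')).2, by ring⟩
  · rintro ⟨rfl, c, hc⟩
    set j := (a.symm (i, t)).1
    set k := (a.symm (i, t)).2
    have h3 : a (j, k - c) = (i, t') := by
      rw [(ha j).2.2] at h1 ⊢
      have e1 : rt a j = i := congrArg Prod.fst h1
      have e3 : (d (rt a j) : ℤ) * k + off a j = t := congrArg Prod.snd h1
      ext
      · rw [e1]
      · simp only
        rw [e1] at e3 ⊢
        linarith
    have h4 : a.symm (i, t') = (j, k - c) := by rw [Equiv.symm_apply_eq, h3]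
    rw [h4]

lemma Unif.eq_pm {N m : ℕ} {f : X N ≃ X m} {d : Fin m → ℕ} (h : Unif f d) (hd : ∀ i, d i = 1) :
    ∃ σ : Fin N ≃ Fin m, f = pm σ := by
  have h1 : ∀ j k, f (j, k) = (rt f j, k) := by
    intro j k
    obtain ⟨h0, h1, h2⟩ := h j
    rw [hd] at h1 h2
    have : off f j = 0 := by push_cast at h1; omega
    rw [h2, this]
    simp
  have hb : Bijective (rt f) := by
    constructor
    · intro j j' hjj
      have : f (j, 0) = f (j', 0) := by rw [h1, h1, hjj]
      exact congrArg Prod.fst (f.injective this)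
    · intro i
      refine ⟨(f.symm (i, 0)).1, ?_⟩
      have h2 : f ((f.symm (i, 0)).1, (f.symm (i, 0)).2) = (i, 0) := by simp
      rw [h1] at h2
      exact congrArg Prod.fst h2
  refine ⟨Equiv.ofBijective _ hb, ?_⟩
  ext x
  · rw [h1 x.1 x.2]; rfl
  · rw [h1 x.1 x.2]; rfl

lemma unif_pm {n m : ℕ} (σ : Fin n ≃ Fin m) : Unif (pm σ) (fun _ => 1) := by
  apply unif_of
  intro j
  exact ⟨σ j, 0, le_refl _, by norm_num, fun k => by simp⟩

/-- composition of uniform maps. -/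
lemma Unif.comp {N M m : ℕ} {c : X N ≃ X M} {a : X M ≃ X m} {e : Fin M → ℕ} {d E : Fin m → ℕ} (hc : Unif c e)
    (ha : Unif a d) (hE : ∀ j, e j = E (rt a j)) : Unif (c.trans a) (fun i => E i * d i) := by
  apply unif_of
  intro j
  obtain ⟨h0, h1, h2⟩ := hc j
  obtain ⟨g0, g1, g2⟩ := ha (rt c j)
  have hdp : (0 : ℤ) < d (rt a (rt c j)) := by exact_mod_cast ha.pos _
  rw [hE] at h1 h2
  refine ⟨rt a (rt c j), (d (rt a (rt c j)) : ℤ) * off c j + off a (rt c j), by positivity, ?_, fun k => ?_⟩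
  · push_cast
    nlinarith
  · simp only [Equiv.trans_apply]
    rw [h2, g2]
    ext
    · rfl
    · simp only
      push_cast
      ring

end Pool.Agent.W2helper9.CT
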