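import Pool.Agent.W2helper9.CT.NatMap

/-!
# Carets on the side of the source
-/

set_option autoImplicit false

namespace Pool.Agent.W2helper9.CT

open Function

/-- a caret: an ordered tuple of pieces whose length is a prime of `L`. -/
structure Car (L : Finset ℕ) (N : ℕ) where
  /-- the prime -/
  p : ℕ
  hp : p ∈ L
  pr : p.Prime
  /-- the tuple -/
  x : Fin p → Fin N
  inj : Injective x

variable {L : Finset ℕ}

/-- the map `P` glues the tuple `x`. -/
def Has {N m p : ℕ} (P : X N ≃ X m) (x : Fin p → Fin N) : Prop :=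
  ∃ r, ∀ (s : Fin p) (k : ℤ), P (x s, k) = (r, (p : ℤ) * k + (s : ℕ))

/-- the piece `j` is not changed. -/
def Fx {N m : ℕ} (P : X N ≃ X m) (j : Fin N) : Prop := ∀ k, P (j, k) = (rt P j, k)

lemma Fx.of {N m : ℕ} {P : X N ≃ X m} {j : Fin N} {i : Fin m} (h : ∀ k, P (j, k) = (i, k)) : Fx P j := by
  have : rt P j = i := by rw [rt, h]
  intro k
  rw [h, this]

/-- the gluing of a caret. -/
lemma Car.exists_ce {N : ℕ} (c : Car L N) : ∃ e : X N ≃ X (N - c.p + 1), Has e c.x ∧
    ∀ j, j ∉ Set.range c.x → Fx e j := by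
  classical
  have hpos := c.pr.pos
  have hcard : Fintype.card {j : Fin N // ¬ (j ∈ Set.range c.x)} = N - c.p := by
    rw [Fintype.card_subtype_compl, Fintype.card_fin]
    have h1 : Fintype.card {j : Fin N // j ∈ Set.range c.x} = c.p := by
      have h2 : Fintype.card {j : Fin N // j ∈ Set.range c.x} = Fintype.card (Fin c.p) :=
        Fintype.card_eq.2 ⟨(Equiv.ofInjective c.x c.inj).symm⟩
      rw [h2, Fintype.card_fin]
    rw [h1]
  let ρ : Fin N ≃ Fin c.p ⊕ Fin (N - c.p) :=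
    (Equiv.sumCompl (fun j => j ∈ Set.range c.x)).symm.trans
      (Equiv.sumCongr (Equiv.ofInjective c.x c.inj).symm (Fintype.equivFinOfCardEq hcard))
  have hρ : ∀ s, ρ (c.x s) = Sum.inl s := by
    intro s
    have h1 : (Equiv.sumCompl (fun j => j ∈ Set.range c.x)).symm (c.x s) = Sum.inl ⟨c.x s, ⟨s, rfl⟩⟩ := by
      rw [Equiv.symm_apply_eq]; rfl
    simp only [ρ, Equiv.trans_apply]
    rw [h1]
    simp only [Equiv.sumCongr_apply, Sum.map_inl, Sum.inl.injEq]
    rw [Equiv.symm_apply_eq]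
    rfl
  have hρ' : ∀ j, j ∉ Set.range c.x → ∃ t, ρ j = Sum.inr t := by
    intro j hj
    rcases h : ρ j with s | t
    · exfalso
      apply hj
      refine ⟨s, ?_⟩
      apply ρ.injective
      rw [hρ, h]
    · exact ⟨t, rfl⟩
  have hp0 : (0 : ℤ) < c.p := by exact_mod_cast hpos
  let g : (Fin c.p ⊕ Fin (N - c.p)) × ℤ ≃ X (N - c.p + 1) :=
    { toFun := fun y => Sum.elim (fun s : Fin c.p => ((0 : Fin (N - c.p + 1)), (c.p : ℤ) * y.2 + (s : ℕ)))
        (fun t => (t.succ, y.2)) y.1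
      invFun := fun z => Fin.cases (motive := fun _ => (Fin c.p ⊕ Fin (N - c.p)) × ℤ)
        (Sum.inl ⟨(z.2 % c.p).toNat, by
          have h1 := Int.emod_nonneg z.2 hp0.ne'
          have h2 := Int.emod_lt_of_pos z.2 hp0
          omega⟩, z.2 / c.p) (fun t => (Sum.inr t, z.2)) z.1
      left_inv := by
        rintro ⟨s | t, k⟩
        · have hs : ((s : ℕ) : ℤ) < c.p := by exact_mod_cast s.2
          have h1 : ((c.p : ℤ) * k + (s : ℕ)) % c.p = (s : ℕ) := by
            rw [Int.mul_add_emod_self_left]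
            exact Int.emod_eq_of_lt (by positivity) hs
          have h2 : ((c.p : ℤ) * k + (s : ℕ)) / c.p = k := by
            rw [Int.mul_add_ediv_left _ _ hp0.ne', Int.ediv_eq_zero_of_lt (by positivity) hs, add_zero]
          simp only [Sum.elim_inl, Fin.cases_zero]
          refine Prod.ext ?_ h2
          simp only
          congr 1
          ext
          simp [h1]
        · simp only [Sum.elim_inr, Fin.cases_succ]
      right_inv := by
        rintro ⟨i, k⟩
        refine Fin.cases ?_ (fun t => ?_) i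
        · simp only [Fin.cases_zero, Sum.elim_inl]
          refine Prod.ext rfl ?_
          simp only
          have h1 := Int.emod_nonneg k hp0.ne'
          rw [Int.toNat_of_nonneg h1]
          exact Int.mul_ediv_add_emod k c.p
        · simp }
  let e : X N ≃ X (N - c.p + 1) := (ρ.prodCongr (Equiv.refl ℤ)).trans g
  refine ⟨e, ⟨0, fun s k => ?_⟩, fun j hj => ?_⟩
  · change Sum.elim _ _ (ρ (c.x s)) = _
    rw [hρ]
    rfl
  · obtain ⟨t, ht⟩ := hρ' j hj
    refine Fx.of (i := t.succ) fun k => ?_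
    change Sum.elim _ _ (ρ j) = _
    rw [ht]
    rfl

/-- number of pieces after the gluing. -/
abbrev Car.cm {N : ℕ} (c : Car L N) : ℕ := N - c.p + 1

/-- the gluing of a caret. -/
noncomputable def Car.ce {N : ℕ} (c : Car L N) : X N ≃ X c.cm := c.exists_ce.choose

lemma Car.has {N : ℕ} (c : Car L N) : Has c.ce c.x := c.exists_ce.choose_spec.1

lemma Car.fx {N : ℕ} (c : Car L N) {j : Fin N} (h : j ∉ Set.range c.x) : Fx c.ce j :=
  c.exists_ce.choose_spec.2 j h

/-- the new root. -/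
noncomputable def Car.r {N : ℕ} (c : Car L N) : Fin c.cm := c.has.choose

lemma Car.ce_x {N : ℕ} (c : Car L N) (s : Fin c.p) (k : ℤ) : c.ce (c.x s, k) = (c.r, (c.p : ℤ) * k + (s : ℕ)) :=
  c.has.choose_spec s k

lemma Car.le {N : ℕ} (c : Car L N) : c.p ≤ N := by
  have := Fintype.card_le_of_injective c.x c.inj
  simpa using this

lemma Car.cm_lt {N : ℕ} (c : Car L N) : c.cm < N := by
  have h1 := c.le
  have h2 := c.pr.two_le
  unfold Car.cm
  omega

lemma Car.symm_r {N : ℕ} (c : Car L N) (t : ℤ) : ∃ s k, c.ce.symm (c.r, t) = (c.x s, k) ∧ (c.p : ℤ) * k + (s : ℕ) = t := by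
  have hp0 : (0 : ℤ) < c.p := by exact_mod_cast c.pr.pos
  have h1 := Int.emod_nonneg t hp0.ne'
  have h2 := Int.emod_lt_of_pos t hp0
  refine ⟨⟨(t % c.p).toNat, by omega⟩, t / c.p, ?_, ?_⟩
  · rw [Equiv.symm_apply_eq, c.ce_x]
    refine Prod.ext rfl ?_
    simp only
    rw [Int.toNat_of_nonneg h1]
    exact (Int.mul_ediv_add_emod t c.p).symm
  · simp only
    rw [Int.toNat_of_nonneg h1]
    exact Int.mul_ediv_add_emod t c.p

lemma Car.cover {N : ℕ} (c : Car L N) (i : Fin c.cm) (hi : i ≠ c.r) :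
    ∃ j, j ∉ Set.range c.x ∧ ∀ k, c.ce (j, k) = (i, k) := by
  have h1 : c.ce ((c.ce.symm (i, 0)).1, (c.ce.symm (i, 0)).2) = (i, 0) := by simp
  set j := (c.ce.symm (i, 0)).1
  have hj : j ∉ Set.range c.x := by
    rintro ⟨s, hs⟩
    rw [← hs, c.ce_x] at h1
    exact hi (congrArg Prod.fst h1).symm
  refine ⟨j, hj, fun k => ?_⟩
  have h2 := c.fx hj
  rw [h2] at h1
  rw [h2, (Prod.mk.inj h1).1]

lemma Car.rt_ne {N : ℕ} (c : Car L N) {j : Fin N} (hj : j ∉ Set.range c.x) : rt c.ce j ≠ c.r := by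
  intro h
  obtain ⟨s, k, h1, h2⟩ := c.symm_r 0
  have h3 := c.fx hj 0
  rw [h] at h3
  apply hj
  have h4 : c.ce.symm (c.r, 0) = (j, 0) := by rw [Equiv.symm_apply_eq]; exact h3.symm
  rw [h1] at h4
  exact ⟨s, congrArg Prod.fst h4⟩

lemma Car.unif {N : ℕ} (c : Car L N) : Unif c.ce (up c.r c.p) := by
  apply unif_of
  intro j
  by_cases hj : j ∈ Set.range c.x
  · obtain ⟨s, rfl⟩ := hj
    refine ⟨c.r, (s : ℕ), by positivity, ?_, fun k => ?_⟩
    · simp
    · simp [c.ce_x]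
  · refine ⟨rt c.ce j, 0, le_refl _, ?_, fun k => ?_⟩
    · simp [up, c.rt_ne hj]
    · rw [c.fx hj]
      simp [up, c.rt_ne hj]

lemma Car.mc (hL : ∀ q ∈ L, q.Prime) {N : ℕ} (c : Car L N) : MC L c.ce :=
  ⟨_, c.unif, sm_up hL _ c.hp⟩

lemma Car.nm (hL : ∀ q ∈ L, q.Prime) {N : ℕ} (c : Car L N) : NM L c.ce := (c.mc hL).nm

/-- factoring out a caret. -/
theorem MC.fac {N M : ℕ} {P : X N ≃ X M} (hP : MC L P) (c : Car L N) (h : Has P c.x) :
    MC L (c.ce.symm.trans P) := by
  obtain ⟨D, hD, hs⟩ := hP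
  obtain ⟨rP, hrP⟩ := h
  refine ⟨Function.update D rP 1, ?_, ?_⟩
  · apply unif_of
    intro i
    by_cases hi : i = c.r
    · subst hi
      refine ⟨rP, 0, le_refl _, by simp, fun k => ?_⟩
      obtain ⟨s, q, h1, h2⟩ := c.symm_r k
      simp only [Equiv.trans_apply, h1, hrP, h2]
      simp
    · obtain ⟨j, hj, hj2⟩ := c.cover i hi
      have hj3 : ∀ k, c.ce.symm (i, k) = (j, k) := fun k => by rw [Equiv.symm_apply_eq, hj2]
      obtain ⟨h0, h1, h2⟩ := hD j
      have hne : rt P j ≠ rP := by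
        intro heq
        have hp0 : (0 : ℤ) < c.p := by exact_mod_cast c.pr.pos
        have g1 := Int.emod_nonneg (off P j) hp0.ne'
        have g2 := Int.emod_lt_of_pos (off P j) hp0
        have g3 : P (c.x ⟨(off P j % c.p).toNat, by omega⟩, off P j / c.p) = (rP, off P j) := by
          rw [hrP]
          refine Prod.ext rfl ?_
          simp only
          rw [Int.toNat_of_nonneg g1]
          exact Int.mul_ediv_add_emod _ _
        have g4 : P (j, 0) = (rP, off P j) := by rw [h2, heq]; simp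
        have g5 := P.injective (g3.trans g4.symm)
        exact hj ⟨_, congrArg Prod.fst g5⟩
      refine ⟨rt P j, off P j, h0, ?_, fun k => ?_⟩
      · rw [Function.update_of_ne hne]; exact h1
      · rw [Function.update_of_ne hne]
        simp only [Equiv.trans_apply, hj3]
        exact h2 k
  · intro i
    by_cases hi : i = rP
    · subst hi; simpa using Sm.one L
    · rw [Function.update_of_ne hi]; exact hs i

/-- pushing a caret forward. -/
def Car.push {N M : ℕ} (y : Car L N) (P : X N ≃ X M) (h : ∀ s, Fx P (y.x s)) : Car L M where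
  p := y.p
  hp := y.hp
  pr := y.pr
  x := fun s => rt P (y.x s)
  inj := by
    intro s s' hss
    apply y.inj
    have h1 := h s 0
    have h2 := h s' 0
    simp only at hss
    rw [hss, ← h2] at h1
    exact congrArg Prod.fst (P.injective h1)

/-- disjoint carets. -/
def Dj {N : ℕ} (c y : Car L N) : Prop := ∀ s t, c.x s ≠ y.x t

lemma Dj.symm {N : ℕ} {c y : Car L N} (h : Dj c y) : Dj y c := fun s t => (h t s).symm

lemma Dj.fx {N : ℕ} {c y : Car L N} (h : Dj c y) : ∀ s, Fx c.ce (y.x s) := fun s =>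
  c.fx (by rintro ⟨t, ht⟩; exact h t s ht)

lemma Has.push {N M : ℕ} {P : X N ≃ X M} {c y : Car L N} (h : Dj c y) (hy : Has P y.x) :
    Has (c.ce.symm.trans P) (y.push c.ce h.fx).x := by
  obtain ⟨r, hr⟩ := hy
  refine ⟨r, fun s k => ?_⟩
  have h1 : c.ce.symm (rt c.ce (y.x s), k) = (y.x s, k) := by
    rw [Equiv.symm_apply_eq]; exact (h.fx s k).symm
  change P (c.ce.symm (rt c.ce (y.x s), k)) = _
  rw [h1]
  exact hr s k

/-- gluing further pieces. -/
theorem MC.comp {N M : ℕ} {P : X N ≃ X M} {D : Fin M → ℕ} (hP : Unif P D) (hs : ∀ i, Sm L (D i))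
    (hL : ∀ q ∈ L, q.Prime) (z : Car L M) (h : ∀ s, D (z.x s) = 1) : MC L (P.trans z.ce) := by
  have hE : ∀ j, D j = (fun i => D (z.ce.symm (i, 0)).1) (rt z.ce j) := by
    intro j
    simp only
    by_cases hj : j ∈ Set.range z.x
    · obtain ⟨s, rfl⟩ := hj
      have h1 : rt z.ce (z.x s) = z.r := by rw [rt, z.ce_x]
      rw [h1, h]
      obtain ⟨s', k, h2, -⟩ := z.symm_r 0
      rw [h2, h]
    · have h1 : z.ce.symm (rt z.ce j, 0) = (j, 0) := by rw [Equiv.symm_apply_eq, z.fx hj]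
      rw [h1]
  have := hP.comp (E := fun i => D (z.ce.symm (i, 0)).1) z.unif hE
  exact ⟨_, this, fun i => (hs _).mul (sm_up hL _ z.hp i)⟩

lemma Unif.one_of_fx {N M : ℕ} {P : X N ≃ X M} {D : Fin M → ℕ} (hP : Unif P D) {j : Fin N} (h : Fx P j) :
    D (rt P j) = 1 := by
  have h1 := (hP j).2.2 1
  have h2 := (hP j).2.2 0
  rw [h] at h1 h2
  have h3 := congrArg Prod.snd h1
  have h4 := congrArg Prod.snd h2
  simp only at h3 h4
  omega

/-- gluing one more caret. -/
theorem MC.extend (hL : ∀ q ∈ L, q.Prime) {N M : ℕ} {P : X N ≃ X M} (hP : MC L P) (z : Car L N)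
    (hz : ∀ s, Fx P (z.x s)) : ∃ M', ∃ P' : X N ≃ X M', MC L P' ∧ Has P' z.x ∧
      (∀ x : Car L N, Has P x.x → Has P' x.x) ∧ (∀ j, j ∉ Set.range z.x → Fx P j → Fx P' j) := by
  obtain ⟨D, hD, hs⟩ := hP
  refine ⟨_, P.trans (z.push P hz).ce, MC.comp hD hs hL _ (fun s => hD.one_of_fx (hz s)), ?_, ?_, ?_⟩
  · refine ⟨(z.push P hz).r, fun s k => ?_⟩
    rw [Equiv.trans_apply, hz s]
    exact (z.push P hz).ce_x s k
  · rintro x ⟨r, hr⟩
    have hnr : r ∉ Set.range (z.push P hz).x := by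
      rintro ⟨s, hs'⟩
      have h1 : rt P (z.x s) = r := hs'
      have h0 := x.pr.two_le
      have h2 := hz s 0
      rw [h1] at h2
      have h3 := hr ⟨0, by omega⟩ 0
      simp only [mul_zero, CharP.cast_eq_zero, add_zero] at h3
      have h4 := P.injective (h2.trans h3.symm)
      have h5 : z.x s = x.x ⟨0, by omega⟩ := congrArg Prod.fst h4
      have h6 := hz s 1
      rw [h5, hr] at h6
      have h7 := congrArg Prod.snd h6
      simp only [mul_one, CharP.cast_eq_zero, add_zero] at h7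
      omega
    refine ⟨rt (z.push P hz).ce r, fun s k => ?_⟩
    rw [Equiv.trans_apply, hr, (z.push P hz).fx hnr]
  · intro j hj hj2
    have hnr : rt P j ∉ Set.range (z.push P hz).x := by
      rintro ⟨s, hs'⟩
      have h1 : rt P (z.x s) = rt P j := hs'
      have h2 := hz s 0
      rw [h1, ← hj2] at h2
      exact hj ⟨s, congrArg Prod.fst (P.injective h2)⟩
    refine Fx.of (i := rt (z.push P hz).ce (rt P j)) fun k => ?_
    rw [Equiv.trans_apply, hj2, (z.push P hz).fx hnr]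

lemma MC.refl (N : ℕ) : MC L (Equiv.refl (X N)) :=
  ⟨fun _ => 1, by rw [← pm_refl]; exact unif_pm _, fun _ => Sm.one L⟩

/-- gluing three disjoint carets. -/
theorem exists_three (hL : ∀ q ∈ L, q.Prime) {N : ℕ} (x y z : Car L N) (hxy : Dj x y) (hxz : Dj x z)
    (hyz : Dj y z) : ∃ M, ∃ P : X N ≃ X M, MC L P ∧ Has P x.x ∧ Has P y.x ∧ Has P z.x := by
  obtain ⟨M₁, P₁, h₁, hx₁, -, hf₁⟩ := MC.extend hL (MC.refl N) x fun s => Fx.of fun k => rfl
  obtain ⟨M₂, P₂, h₂, hy₂, hh₂, hf₂⟩ := MC.extend hL h₁ y fun s =>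
    hf₁ _ (by rintro ⟨t, ht⟩; exact hxy t s ht) (Fx.of fun k => rfl)
  obtain ⟨M₃, P₃, h₃, hz₃, hh₃, -⟩ := MC.extend hL h₂ z fun s =>
    hf₂ _ (by rintro ⟨t, ht⟩; exact hyz t s ht)
      (hf₁ _ (by rintro ⟨t, ht⟩; exact hxz t s ht) (Fx.of fun k => rfl))
  exact ⟨M₃, P₃, h₃, hh₃ x (hh₂ x hx₁), hh₃ y hy₂, hz₃⟩

/-- the gluing of two disjoint carets. -/
noncomputable def pd {N : ℕ} (x y : Car L N) (h : Dj x y) : X N ≃ X (y.push x.ce h.fx).cm :=
  x.ce.trans (y.push x.ce h.fx).ce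

lemma pd_mc (hL : ∀ q ∈ L, q.Prime) {N : ℕ} (x y : Car L N) (h : Dj x y) : MC L (pd x y h) :=
  MC.comp x.unif (sm_up hL _ x.hp) hL _ fun s => x.unif.one_of_fx (h.fx s)

lemma pd_has_left {N : ℕ} (x y : Car L N) (h : Dj x y) : Has (pd x y h) x.x := by
  have hnr : x.r ∉ Set.range (y.push x.ce h.fx).x := by
    rintro ⟨s, hs⟩
    exact x.rt_ne (by rintro ⟨t, ht⟩; exact h t s ht) hs
  refine ⟨rt (y.push x.ce h.fx).ce x.r, fun s k => ?_⟩
  rw [pd, Equiv.trans_apply, x.ce_x, (y.push x.ce h.fx).fx hnr]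

lemma pd_has_right {N : ℕ} (x y : Car L N) (h : Dj x y) : Has (pd x y h) y.x := by
  refine ⟨(y.push x.ce h.fx).r, fun s k => ?_⟩
  rw [pd, Equiv.trans_apply, h.fx s]
  exact (y.push x.ce h.fx).ce_x s k

lemma pd_fac {N M : ℕ} (x y : Car L N) (h : Dj x y) {P : X N ≃ X M} (hP : MC L P) (hx : Has P x.x)
    (hy : Has P y.x) : MC L ((pd x y h).symm.trans P) := by
  have h1 := (hP.fac x hx).fac (y.push x.ce h.fx) (hy.push h)
  have h2 : (y.push x.ce h.fx).ce.symm.trans (x.ce.symm.trans P) = (pd x y h).symm.trans P := by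
    ext z <;> simp [pd]
  rwa [h2] at h1

end Pool.Agent.W2helper9.CT
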