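import Pool.Agent.W2helper9.CT.Last

/-!
# Extension of functors from the natural maps with at most `n` pieces to those with `n + 1` pieces
-/

set_option autoImplicit false

namespace Pool.Agent.W2helper9.CT

open Function

variable {L : Finset ℕ}

/-- group-valued functors on the natural maps with at most `n` pieces. -/
structure Fun (L : Finset ℕ) (n : ℕ) (K : Type*) [Group K] where
  /-- the values -/
  F : ∀ {N m : ℕ}, (X N ≃ X m) → K
  map : ∀ {N m l : ℕ} (f : X N ≃ X m) (g : X m ≃ X l), N ≤ n → NM L f → NM L g → F (f.trans g) = F g * F f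

/-- the cocycle lemma. -/
theorem cocycle {V K : Type*} [Group K] (R : V → V → Prop) (hs : ∀ a b, R a b → R b a) (x0 : V) (κ : V → V → K)
    (h5 : ∀ a b c d e : V, ∃ w, R w a ∧ R w b ∧ R w c ∧ R w d ∧ R w e)
    (hc : ∀ x y z, R x y → R y z → R x z → κ x y * κ y z = κ x z) :
    ∃ φ : V → K, ∀ x y, R x y → φ x = κ x y * φ y := by
  have h2 : ∀ x, ∃ w, R w x ∧ R w x0 := fun x => by
    obtain ⟨w, h1, h2, -, -, -⟩ := h5 x x0 x0 x0 x0
    exact ⟨w, h1, h2⟩
  choose w hw hw0 using h2
  have key : ∀ x v, R v x → R v x0 → R v (w x) → κ x (w x) * κ (w x) x0 = κ x v * κ v x0 := by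
    intro x v h1 h2 h3
    rw [← hc x v (w x) (hs _ _ h1) h3 (hs _ _ (hw x)), mul_assoc, hc v (w x) x0 h3 (hw0 x) h2]
  refine ⟨fun x => κ x (w x) * κ (w x) x0, fun x y hxy => ?_⟩
  obtain ⟨v, h1, h2, h3, h4, h5⟩ := h5 x y x0 (w x) (w y)
  simp only
  rw [key x v h1 h3 h4, key y v h2 h3 h5, ← mul_assoc, hc x y v hxy (hs _ _ h2) (hs _ _ h1)]

/-- a pair outside of a small set. -/
lemma exists_pair (h2 : 2 ∈ L) {N : ℕ} (S : Finset (Fin N)) (hS : S.card + 2 ≤ N) :
    ∃ w : Car L N, w.p = 2 ∧ ∀ s, w.x s ∉ S := by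
  have h1 : 1 < (Sᶜ).card := by
    rw [Finset.card_compl, Fintype.card_fin]; omega
  obtain ⟨a, ha, b, hb, hab⟩ := Finset.one_lt_card.1 h1
  refine ⟨⟨2, h2, Nat.prime_two, ![a, b], ?_⟩, rfl, ?_⟩
  · intro s t hst
    fin_cases s <;> fin_cases t <;> simp_all
  · intro s
    rw [Finset.mem_compl] at ha hb
    fin_cases s <;> simp [ha, hb]

/-- the pieces of a caret. -/
def Car.im {N : ℕ} (c : Car L N) : Finset (Fin N) := Finset.univ.image c.x

lemma Car.im_card {N : ℕ} (c : Car L N) : c.im.card ≤ c.p := by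
  refine Finset.card_image_le.trans ?_
  simp

lemma Car.mem_im {N : ℕ} (c : Car L N) (s : Fin c.p) : c.x s ∈ c.im :=
  Finset.mem_image.2 ⟨s, Finset.mem_univ _, rfl⟩

lemma exists_five (h2 : 2 ∈ L) {B : ℕ} (hB : ∀ q ∈ L, q ≤ B) {N : ℕ} (hN : 5 * B + 2 ≤ N)
    (a b c d e : Car L N) : ∃ w : Car L N, Dj w a ∧ Dj w b ∧ Dj w c ∧ Dj w d ∧ Dj w e := by
  have hcard : (a.im ∪ b.im ∪ c.im ∪ d.im ∪ e.im).card + 2 ≤ N := by
    have e1 := Finset.card_union_le (a.im ∪ b.im ∪ c.im ∪ d.im) e.im
    have e2 := Finset.card_union_le (a.im ∪ b.im ∪ c.im) d.im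
    have e3 := Finset.card_union_le (a.im ∪ b.im) c.im
    have e4 := Finset.card_union_le a.im b.im
    have f1 := a.im_card.trans (hB _ a.hp)
    have f2 := b.im_card.trans (hB _ b.hp)
    have f3 := c.im_card.trans (hB _ c.hp)
    have f4 := d.im_card.trans (hB _ d.hp)
    have f5 := e.im_card.trans (hB _ e.hp)
    omega
  obtain ⟨w, -, hw⟩ := exists_pair h2 _ hcard
  refine ⟨w, ?_, ?_, ?_, ?_, ?_⟩ <;> intro s t hst <;> apply hw s <;> rw [hst] <;>
    simp [Finset.mem_union, Car.mem_im]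

/-- the value of the cocycle. -/
noncomputable def kap {n : ℕ} {K : Type*} [Group K] (Φ : Fun L n K) (x y : Car L (n + 1)) : K :=
  open Classical in if h : Dj x y then (Φ.F (x.ce.symm.trans (pd x y h)))⁻¹ * Φ.F (y.ce.symm.trans (pd x y h)) else 1

lemma kap_eval (hL : ∀ q ∈ L, q.Prime) {n : ℕ} {K : Type*} [Group K] (Φ : Fun L n K) {x y : Car L (n + 1)}
    (h : Dj x y) {M : ℕ} {P : X (n + 1) ≃ X M} (hP : MC L P) (hx : Has P x.x) (hy : Has P y.x) :
    kap Φ x y = (Φ.F (x.ce.symm.trans P))⁻¹ * Φ.F (y.ce.symm.trans P) := by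
  rw [kap, dif_pos h]
  have hQ := (pd_fac x y h hP hx hy).nm
  have e1 : x.ce.symm.trans P = (x.ce.symm.trans (pd x y h)).trans ((pd x y h).symm.trans P) := by
    ext z <;> simp
  have e2 : y.ce.symm.trans P = (y.ce.symm.trans (pd x y h)).trans ((pd x y h).symm.trans P) := by
    ext z <;> simp
  have l1 : x.cm ≤ n := Nat.lt_succ_iff.1 x.cm_lt
  have l2 : y.cm ≤ n := Nat.lt_succ_iff.1 y.cm_lt
  rw [e1, e2, Φ.map _ _ l1 ((pd_mc hL x y h).fac x (pd_has_left x y h)).nm hQ,
    Φ.map _ _ l2 ((pd_mc hL x y h).fac y (pd_has_right x y h)).nm hQ]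
  group

/-- the values on the carets. -/
theorem exists_phi (hL : ∀ q ∈ L, q.Prime) (h2 : 2 ∈ L) {B : ℕ} (hB : ∀ q ∈ L, q ≤ B) {n : ℕ} {K : Type*}
    [Group K] (Φ : Fun L n K) (hn : 5 * B + 2 ≤ n + 1) :
    ∃ φ : Car L (n + 1) → K, ∀ x y, Dj x y → ∀ {M : ℕ} (P : X (n + 1) ≃ X M), MC L P → Has P x.x → Has P y.x →
      Φ.F (x.ce.symm.trans P) * φ x = Φ.F (y.ce.symm.trans P) * φ y := by
  obtain ⟨x0, -, -⟩ := exists_pair h2 (∅ : Finset (Fin (n + 1))) (by simp; omega)
  obtain ⟨φ, hφ⟩ := cocycle (Dj (L := L) (N := n + 1)) (fun a b h => h.symm) x0 (kap Φ)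
    (exists_five h2 hB hn) (by
      intro x y z hxy hyz hxz
      obtain ⟨M, P, hP, hx, hy, hz⟩ := exists_three hL x y z hxy hxz hyz
      rw [kap_eval hL Φ hxy hP hx hy, kap_eval hL Φ hyz hP hy hz, kap_eval hL Φ hxz hP hx hz]
      group)
  refine ⟨φ, fun x y h M P hP hx hy => ?_⟩
  rw [hφ x y h, kap_eval hL Φ h hP hx hy]
  group

lemma Car.not_fx {N : ℕ} (c : Car L N) (s : Fin c.p) : ¬ Fx c.ce (c.x s) := by
  intro h
  have h1 := h 1
  have h0 := h 0
  rw [c.ce_x] at h1 h0
  have e1 := congrArg Prod.snd h1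
  have e0 := congrArg Prod.snd h0
  simp only at e1 e0
  have := c.pr.two_le
  omega

lemma push_push {N M m : ℕ} (P : X N ≃ X M) (Q : X M ≃ X m) (w : Car L N) (h : ∀ s, Fx P (w.x s))
    (h' : ∀ s, Fx Q ((w.push P h).x s)) (h'' : ∀ s, Fx (P.trans Q) (w.x s)) :
    (w.push P h).push Q h' = w.push (P.trans Q) h'' := by
  refine (Car.ext' (c := w.push (P.trans Q) h'') (d := (w.push P h).push Q h') rfl ?_).symm
  intro s
  exact rt_trans (h s)

/-- a caret followed by a natural map determines the caret if the natural map is a relabelling. -/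
lemma car_eq (hL : ∀ q ∈ L, q.Prime) {N m : ℕ} {x y : Car L N} {σ : Fin x.cm ≃ Fin m} {D : X y.cm ≃ X m}
    (hD : NM L D) (h : x.ce.trans (pm σ) = y.ce.trans D) : x = y := by
  obtain ⟨M, h0, h1, h2, h3⟩ := hD.cls' hL y.r
  have hxp := x.pr
  have hyp := y.pr
  have hM : 1 ≤ M := Nat.one_le_iff_ne_zero.2 h2.1
  have key : ∀ (s : Fin y.p) (k : ℤ), (x.ce.trans (pm σ)) (y.x s, k) =
      (rt D y.r, (M : ℤ) * ((y.p : ℤ) * k + (s : ℕ)) + off D y.r) := by
    intro s k
    rw [h, Equiv.trans_apply, y.ce_x, h3]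
  have hmem : ∀ s : Fin y.p, ∃ s', x.x s' = y.x s := by
    intro s
    by_contra hcon
    have h4 : y.x s ∉ Set.range x.x := fun ⟨s', hs'⟩ => hcon ⟨s', hs'⟩
    have e1 := key s 1
    have e0 := key s 0
    rw [Equiv.trans_apply, x.fx h4, pm_apply] at e1 e0
    have e1' := congrArg Prod.snd e1
    have e0' := congrArg Prod.snd e0
    simp only at e1' e0'
    have h5 : (M : ℤ) * y.p = 1 := by linear_combination e0' - e1'
    have h6 : M * y.p = 1 := by exact_mod_cast h5
    have h7 := Nat.eq_one_of_mul_eq_one_left h6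
    have h8 := hyp.one_lt
    omega
  choose g hg using hmem
  have key2 : ∀ (s : Fin y.p) (k : ℤ), (x.p : ℤ) * k + (g s : ℕ) =
      (M : ℤ) * ((y.p : ℤ) * k + (s : ℕ)) + off D y.r := by
    intro s k
    have e := key s k
    rw [← hg, Equiv.trans_apply, x.ce_x, pm_apply] at e
    exact congrArg Prod.snd e
  have hp1 : x.p = M * y.p := by
    have s : Fin y.p := ⟨0, hyp.pos⟩
    have e1 := key2 s 1
    have e0 := key2 s 0
    have : (x.p : ℤ) = (M : ℤ) * y.p := by linear_combination e1 - e0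
    exact_mod_cast this
  have hpq : x.p = y.p := ((Nat.prime_dvd_prime_iff_eq hyp hxp).1 (Dvd.intro_left _ hp1.symm)).symm
  have hM1 : M = 1 := by
    have h5 : M * y.p = 1 * y.p := by rw [← hp1, one_mul, hpq]
    exact Nat.eq_of_mul_eq_mul_right hyp.pos h5
  subst hM1
  have ho : off D y.r = 0 := by omega
  refine (Car.ext' (c := y) (d := x) hpq.symm ?_).symm
  intro s
  rw [← hg s]
  congr 1
  ext
  have e0 := key2 s 0
  rw [ho] at e0
  simp only [mul_zero, zero_add, Nat.cast_one, one_mul, add_zero] at e0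
  simp only [Fin.val_cast]
  exact_mod_cast e0

section

variable {n : ℕ} {K : Type*} [Group K] (Φ : Fun L n K) (φ : Car L (n + 1) → K)
  (hφ : ∀ x y, Dj x y → ∀ {M : ℕ} (P : X (n + 1) ≃ X M), MC L P → Has P x.x → Has P y.x →
      Φ.F (x.ce.symm.trans P) * φ x = Φ.F (y.ce.symm.trans P) * φ y)

include hφ

/-- comparison with a caret of trivial roots. -/
lemma base_eq (hL : ∀ q ∈ L, q.Prime) {m : ℕ} (x w : Car L (n + 1)) (D : X x.cm ≃ X m) (hD : NM L D)
    (hw : ∀ s, Fx (x.ce.trans D) (w.x s)) :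
    Φ.F (w.push (x.ce.trans D) hw).ce * (Φ.F D * φ x) =
      Φ.F (w.ce.symm.trans ((x.ce.trans D).trans (w.push (x.ce.trans D) hw).ce)) * φ w := by
  have h1 := fun s => Fx.of_trans hL (x.nm hL) hD (hw s)
  have hdj : Dj x w := by
    intro s t hst
    apply x.not_fx s
    rw [hst]
    exact (h1 t).1
  have hl : x.cm ≤ n := Nat.lt_succ_iff.1 x.cm_lt
  have hl' : w.cm ≤ n := Nat.lt_succ_iff.1 w.cm_lt
  set w' := w.push x.ce hdj.fx with hw'
  have h2 : ∀ s, Fx D (w'.x s) := fun s => (h1 s).2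
  have h3 : w'.push D h2 = w.push (x.ce.trans D) hw := push_push _ _ _ _ _ _
  have h4 := hD.glue hL w' h2
  rw [h3] at h4
  set f := (w.push (x.ce.trans D) hw).ce with hf
  have hfn : NM L f := (w.push (x.ce.trans D) hw).nm hL
  have h5 := hφ x w hdj (pd x w hdj) (pd_mc hL x w hdj) (pd_has_left x w hdj) (pd_has_right x w hdj)
  have epd : pd x w hdj = x.ce.trans w'.ce := rfl
  have e1 : x.ce.symm.trans (pd x w hdj) = w'.ce := by rw [epd]; exact Equiv.ext fun z => by simp
  rw [e1] at h5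
  have e2 : D.trans f = w'.ce.trans (w'.ce.symm.trans (D.trans f)) := Equiv.ext fun z => by simp
  have e3 : w.ce.symm.trans ((x.ce.trans D).trans f) =
      (w.ce.symm.trans (pd x w hdj)).trans (w'.ce.symm.trans (D.trans f)) := by
    rw [epd]; exact Equiv.ext fun z => by simp
  rw [← mul_assoc, ← Φ.map D f hl hD hfn, e2, Φ.map _ _ hl (w'.nm hL) h4, mul_assoc, h5, ← mul_assoc, e3,
    Φ.map _ _ hl' ((pd_mc hL x w hdj).fac w (pd_has_right x w hdj)).nm h4]

/-- the value does not depend on the decomposition. -/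
theorem val_unique (hL : ∀ q ∈ L, q.Prime) (h2 : 2 ∈ L) {B : ℕ} (hB : ∀ q ∈ L, q ≤ B)
    (hn : 2 * (B * B) + 4 ≤ n) : ∀ (t : ℕ) {m : ℕ} (x y : Car L (n + 1)) (D : X x.cm ≃ X m) (D' : X y.cm ≃ X m),
    n + 1 - m ≤ t → NM L D → NM L D' → x.ce.trans D = y.ce.trans D' → Φ.F D * φ x = Φ.F D' * φ y := by
  intro t
  induction t with
  | zero =>
    intro m x y D D' ht hD hD' h
    have h1 := hD.le
    have h3 := x.cm_lt
    omega
  | succ t ih =>
    intro m x y D D' ht hD hD' h
    have hE : NM L (x.ce.trans D) := (x.nm hL).trans hD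
    have hcan : ∀ {x : Car L (n + 1)} {A C : X x.cm ≃ X m}, x.ce.trans A = x.ce.trans C → A = C := by
      intro x A C hh
      refine Equiv.ext fun z => ?_
      have := Equiv.congr_fun hh (x.ce.symm z)
      simpa using this
    rcases hD with ⟨σ⟩ | ⟨D₁, a, r, p, hp, ha, hD₁⟩
    · have hxy := car_eq hL hD' h
      subst hxy
      rw [hcan h]
    rcases hD' with ⟨σ⟩ | ⟨D₁', a', r', p', hp', ha', hD₁'⟩
    · have hxy := car_eq hL (NM.step D₁ a r p hp ha hD₁) h.symm
      subst hxy
      rw [hcan h]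
    rename_i mt mj m₁ m₂
    clear m mj
    rename' mt => m
    set D : Fin m → ℕ := fun i => Nat.lcm (up r p i) (up r' p' i) with hDdef
    have hDs : ∀ i, Sm L (D i) := fun i => (sm_up hL r hp i).lcm (sm_up hL r' hp' i)
    obtain ⟨M, l, hl⟩ := exists_unif' D fun i => Nat.pos_of_ne_zero (hDs i).1
    have hc := (hl.div ha fun i => Nat.dvd_lcm_left _ _)
    have hc' := (hl.div ha' fun i => Nat.dvd_lcm_right _ _)
    have hcn : NM L (l.trans a.symm) := MC.nm ⟨_, hc, fun j => (hDs _).div (Nat.dvd_lcm_left _ _)⟩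
    have hcn' : NM L (l.trans a'.symm) := MC.nm ⟨_, hc', fun j => (hDs _).div (Nat.dvd_lcm_right _ _)⟩
    set E := x.ce.trans (D₁.trans a) with hEdef
    have hG : NM L (E.trans l.symm) := by
      refine hE.refine hL l D hl hDs ?_
      intro j k k'
      have e1 : (a.symm (E (j, k))).1 = (a.symm (E (j, k'))).1 := by
        obtain ⟨M₃, -, -, -, h3⟩ := ((x.nm hL).trans hD₁).cls' hL j
        have e2 : ∀ z, a.symm (E z) = (x.ce.trans D₁) z := fun z => by simp [hEdef]
        rw [e2, e2, h3, h3]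
      have e1' : (a'.symm (E (j, k))).1 = (a'.symm (E (j, k'))).1 := by
        obtain ⟨M₃, -, -, -, h3⟩ := ((y.nm hL).trans hD₁').cls' hL j
        have e2 : ∀ z, a'.symm (E z) = (y.ce.trans D₁') z := fun z => by rw [h]; simp
        rw [e2, e2, h3, h3]
      set y₁ := E (j, k)
      set y₂ := E (j, k')
      have e2 : (a.symm (y₁.1, y₁.2)).1 = (a.symm (y₂.1, y₂.2)).1 := e1
      have e2' : (a'.symm (y₁.1, y₁.2)).1 = (a'.symm (y₂.1, y₂.2)).1 := e1'
      rw [ha.symm_fst] at e2
      rw [ha'.symm_fst] at e2'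
      change (l.symm (y₁.1, y₁.2)).1 = (l.symm (y₂.1, y₂.2)).1
      rw [hl.symm_fst]
      refine ⟨e2.1, ?_⟩
      rw [hDdef]
      simpa using Int.coe_lcm_dvd e2.2 e2'.2
    have lx : x.cm ≤ n := Nat.lt_succ_iff.1 x.cm_lt
    have ly : y.cm ≤ n := Nat.lt_succ_iff.1 y.cm_lt
    have lm₁ : m₁ ≤ n := hD₁.le.trans lx
    have lm₂ : m₂ ≤ n := hD₁'.le.trans ly
    have han : NM L a := MC.nm ⟨_, ha, sm_up hL r hp⟩
    have han' : NM L a' := MC.nm ⟨_, ha', sm_up hL r' hp'⟩
    have hm₁ : m₁ + 1 = m + p := by rw [ha.card]; exact sum_up r p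
    have hm₂ : m₂ + 1 = m + p' := by rw [ha'.card]; exact sum_up r' p'
    have hp2 := (hL p hp).two_le
    have hp2' := (hL p' hp').two_le
    rcases hG.last hL with ⟨σ, hσ⟩ | ⟨z, G, hGn, hGz⟩
    · -- the least common multiple itself
      have hEl : E = (pm σ).trans l := by
        rw [← hσ]; exact Equiv.ext fun z => by simp
      have hEu : Unif E D := by
        have := (unif_pm σ).comp hl (E := fun _ => 1) fun j => rfl
        simp only [one_mul] at this
        rw [hEl]
        exact this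
      have hcard : n + 1 ≤ m + 2 * (B * B) := by
        have h3 := hEu.card
        have h4 : ∀ i, D i ≤ 1 + ((if i = r then B * B else 0) + (if i = r' then B * B else 0)) := by
          intro i
          have hpB := hB p hp
          have hpB' := hB p' hp'
          have hB1 : 1 ≤ B := by omega
          have hBB : B ≤ B * B := Nat.le_mul_of_pos_left B hB1
          have hpp : p * p' ≤ B * B := Nat.mul_le_mul hpB hpB'
          have h5 : D i ≤ up r p i * up r' p' i := Nat.le_of_dvd
            (Nat.mul_pos (ha.pos i) (ha'.pos i)) (Nat.lcm_dvd_mul _ _)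
          by_cases hr : i = r
          · by_cases hr' : i = r'
            · subst hr; subst hr'
              simp only [up, Function.update_self] at h5
              simp only [if_true]
              omega
            · subst hr
              simp only [up, Function.update_self, Function.update_of_ne hr', mul_one] at h5
              simp only [if_true, if_neg hr']
              omega
          · by_cases hr' : i = r'
            · subst hr'
              simp only [up, Function.update_self, Function.update_of_ne hr, one_mul] at h5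
              simp only [if_true, if_neg hr]
              omega
            · simp only [up, Function.update_of_ne hr, Function.update_of_ne hr', mul_one] at h5
              simp only [if_neg hr, if_neg hr']
              omega
        have h5 : (∑ i, D i) ≤ ∑ i : Fin m, (1 + ((if i = r then B * B else 0) + (if i = r' then B * B else 0))) :=
          Finset.sum_le_sum fun i _ => h4 i
        rw [Finset.sum_add_distrib, Finset.sum_add_distrib] at h5
        simp only [Finset.sum_const, Finset.card_univ, Fintype.card_fin, smul_eq_mul, mul_one,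
          Finset.sum_ite_eq', Finset.mem_univ, if_true] at h5
        omega
      obtain ⟨u, hu2, hu⟩ := exists_pair h2 ({r, r'} : Finset (Fin m)) (by
        have := Finset.card_le_two (a := r) (b := r')
        omega)
      have hu1 : ∀ s, D (u.x s) = 1 := by
        intro s
        have h3 := hu s
        simp only [Finset.mem_insert, Finset.mem_singleton, not_or] at h3
        simp [hDdef, up, h3.1, h3.2]
      have hu3 : ∀ s, ∃ j, rt E j = u.x s ∧ off E j = 0 := fun s =>
        hEu.surj (u.x s) 0 (le_refl _) (by rw [hu1]; norm_num)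
      choose j hj hj' using hu3
      have hfx : ∀ s, Fx E (j s) := by
        intro s k
        rw [(hEu (j s)).2.2 k, hj, hj', hu1]
        simp
      let w : Car L (n + 1) := ⟨u.p, u.hp, u.pr, j, by
        intro s s' hss
        apply u.inj
        rw [← hj s, ← hj s', hss]⟩
      have b1 := base_eq Φ φ hφ hL x w (D₁.trans a) (NM.step D₁ a r p hp ha hD₁) hfx
      have hfx' : ∀ s, Fx (y.ce.trans (D₁'.trans a')) (w.x s) := by
        rw [← h]; exact hfx
      have b2 := base_eq Φ φ hφ hL y w (D₁'.trans a') (NM.step D₁' a' r' p' hp' ha' hD₁') hfx'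
      have b3 : Φ.F (w.push E hfx).ce * (Φ.F (D₁.trans a) * φ x) =
          Φ.F (w.push E hfx).ce * (Φ.F (D₁'.trans a') * φ y) := by
        have hgen : ∀ (E' : X (n + 1) ≃ X m) (hE' : ∀ s, Fx E' (w.x s)), E = E' →
            Φ.F (w.push E hfx).ce = Φ.F (w.push E' hE').ce ∧
            Φ.F (w.ce.symm.trans (E.trans (w.push E hfx).ce)) * φ w =
            Φ.F (w.ce.symm.trans (E'.trans (w.push E' hE').ce)) * φ w := by
          rintro E' hE' rfl
          exact ⟨rfl, rfl⟩
        obtain ⟨g1, g2⟩ := hgen _ hfx' h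
        rw [← g1, ← g2] at b2
        rw [b2]
        exact b1
      exact mul_left_cancel b3
    · -- one more step
      have lz : z.cm ≤ n := Nat.lt_succ_iff.1 z.cm_lt
      have lM : M ≤ n := hGn.le.trans lz
      have e1 : x.ce.trans D₁ = z.ce.trans (G.trans (l.trans a.symm)) := by
        have : z.ce.trans (G.trans (l.trans a.symm)) = (z.ce.trans G).trans (l.trans a.symm) := rfl
        rw [this, ← hGz, hEdef]
        exact Equiv.ext fun z => by simp
      have e2 : y.ce.trans D₁' = z.ce.trans (G.trans (l.trans a'.symm)) := by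
        have : z.ce.trans (G.trans (l.trans a'.symm)) = (z.ce.trans G).trans (l.trans a'.symm) := rfl
        rw [this, ← hGz, h]
        exact Equiv.ext fun z => by simp
      have i1 := ih x z D₁ (G.trans (l.trans a.symm)) (by omega) hD₁ (hGn.trans hcn) e1
      have i2 := ih y z D₁' (G.trans (l.trans a'.symm)) (by omega) hD₁' (hGn.trans hcn') e2
      rw [Φ.map _ _ lz hGn hcn] at i1
      rw [Φ.map _ _ lz hGn hcn'] at i2
      rw [Φ.map _ _ lx hD₁ han, Φ.map _ _ ly hD₁' han', mul_assoc, mul_assoc, i1, i2]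
      have e3 : (l.trans a.symm).trans a = l := Equiv.ext fun z => by simp
      have e4 : (l.trans a'.symm).trans a' = l := Equiv.ext fun z => by simp
      have e5 : Φ.F a * Φ.F (l.trans a.symm) = Φ.F l := by rw [← Φ.map _ _ lM hcn han, e3]
      have e6 : Φ.F a' * Φ.F (l.trans a'.symm) = Φ.F l := by rw [← Φ.map _ _ lM hcn' han', e4]
      rw [← mul_assoc, ← mul_assoc, ← mul_assoc, ← mul_assoc, e5, e6]

end

end Pool.Agent.W2helper9.CT
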