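import Pool.Agent.W2helper9.CT.Pres

/-!
# The group of fractions is finitely presented, continued
-/

set_option autoImplicit false

namespace Pool.Agent.W2helper9.CT

open Function

variable {L : Finset ℕ}

section

variable (hL : ∀ q ∈ L, q.Prime) (T : ∀ n, n ≠ 0 → (X n ≃ X 1)) (hT : ∀ n hn, NM L (T n hn))

open Classical in
/-- the values of the tautological functor in the group of fractions. -/
noncomputable def pv {N m : ℕ} (E : X N ≃ X m) (hE : NM L E) : GG L hL :=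
  if h : N ≠ 0 then ⟨(T N h).symm.trans (E.trans (T m (NM.ne_zero E h))),
    ⟨N, T N h, E.trans (T m (NM.ne_zero E h)), hT _ _, hE.trans (hT _ _), rfl⟩⟩ else 1

lemma pv_val {N m : ℕ} (E : X N ≃ X m) (hE : NM L E) (h : N ≠ 0) : ((pv hL T hT E hE : GG L hL) : Equiv.Perm (X 1)) =
    (T N h).symm.trans (E.trans (T m (NM.ne_zero E h))) := by
  rw [pv, dif_pos h]

lemma pv_zero {N m : ℕ} (E : X N ≃ X m) (hE : NM L E) (h : N = 0) : pv hL T hT E hE = 1 := by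
  rw [pv, dif_neg (by simpa using h)]

lemma pv_trans {N m l : ℕ} (f : X N ≃ X m) (g : X m ≃ X l) (hf : NM L f) (hg : NM L g) :
    pv hL T hT (f.trans g) (hf.trans hg) = pv hL T hT g hg * pv hL T hT f hf := by
  by_cases h : N = 0
  · rw [pv_zero _ _ _ _ _ h, pv_zero _ _ _ _ _ h, pv_zero _ _ _ _ _ (NM.eq_zero f h), mul_one]
  · apply Subtype.ext
    rw [Subgroup.coe_mul, pv_val _ _ _ _ _ h, pv_val _ _ _ _ _ h, pv_val _ _ _ _ _ (NM.ne_zero f h)]
    exact Equiv.ext fun z => by simp [Equiv.Perm.mul_apply]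

lemma pv_T (n : ℕ) (h : n ≠ 0) : pv hL T hT (T n h) (hT n h) = 1 := by
  apply Subtype.ext
  rw [pv_val _ _ _ _ _ h]
  have h1 : T 1 (NM.ne_zero (T n h) h) = Equiv.refl _ := NM.one hL (hT 1 _)
  rw [h1]
  exact Equiv.ext fun z => by simp

variable (n₀ : ℕ)

/-- the homomorphism from the presented group. -/
noncomputable def piHom : PresentedGroup (rels n₀ T hT) →* GG L hL :=
  PresentedGroup.toGroup (f := fun t : Gen L n₀ => pv hL T hT t.1.2 t.2) (by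
    rintro r (⟨N, m, l, f, g, hN, hf, hg, rfl⟩ | ⟨n, h0, hn, rfl⟩)
    · simp only [map_mul, map_inv, gen, FreeGroup.lift_apply_of]
      rw [inv_mul_eq_one]
      exact pv_trans hL T hT f g hf hg
    · simp only [gen, FreeGroup.lift_apply_of]
      exact pv_T hL T hT n h0)

lemma piHom_gen {N m : ℕ} (f : X N ≃ X m) (hN : N ≤ n₀) (hf : NM L f) :
    piHom hL T hT n₀ (PresentedGroup.mk _ (gen f hN hf)) = pv hL T hT f hf := by
  exact PresentedGroup.toGroup.of _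

end

section

variable (hL : ∀ q ∈ L, q.Prime) {K : Type*} [Group K] (Ψ : ∀ {N m : ℕ}, (X N ≃ X m) → K)
  (hΨ : ∀ {N m l : ℕ} (f : X N ≃ X m) (g : X m ≃ X l), NM L f → NM L g → Ψ (f.trans g) = Ψ g * Ψ f)

/-- the value of a fraction. -/
noncomputable def psi (g : GG L hL) : K :=
  Ψ (mem_GG.1 g.2).choose_spec.choose_spec.choose * (Ψ (mem_GG.1 g.2).choose_spec.choose)⁻¹

include hΨ

lemma frac_unique {n m : ℕ} {E₁ E₂ : X n ≃ X 1} {F₁ F₂ : X m ≃ X 1} (h1 : NM L E₁) (h2 : NM L E₂)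
    (h3 : NM L F₁) (h4 : NM L F₂) (hLL : ∀ q ∈ L, q.Prime) (h : E₁.symm.trans E₂ = F₁.symm.trans F₂) :
    Ψ E₂ * (Ψ E₁)⁻¹ = Ψ F₂ * (Ψ F₁)⁻¹ := by
  obtain ⟨M, A, B, hA, hB, hAB⟩ := NM.cr hLL h1 h3
  have h5 : A.trans E₂ = B.trans F₂ := by
    refine Equiv.ext fun z => ?_
    have e1 := Equiv.congr_fun h (E₁ (A z))
    have e2 := Equiv.congr_fun hAB z
    simp only [Equiv.trans_apply, Equiv.symm_apply_apply] at e1 e2 ⊢
    rw [e1, e2, Equiv.symm_apply_apply]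
  have e1 := hΨ A E₁ hA h1
  have e2 := hΨ A E₂ hA h2
  have e3 := hΨ B F₁ hB h3
  have e4 := hΨ B F₂ hB h4
  rw [hAB, e3] at e1
  rw [h5, e4] at e2
  have e5 : Ψ A * (Ψ B)⁻¹ = (Ψ E₁)⁻¹ * Ψ F₁ := by
    rw [eq_inv_mul_iff_mul_eq, ← mul_assoc, ← e1]; group
  have e6 : Ψ A * (Ψ B)⁻¹ = (Ψ E₂)⁻¹ * Ψ F₂ := by
    rw [eq_inv_mul_iff_mul_eq, ← mul_assoc, ← e2]; group
  have e7 := e5.symm.trans e6
  calc Ψ E₂ * (Ψ E₁)⁻¹ = Ψ E₂ * ((Ψ E₁)⁻¹ * Ψ F₁) * (Ψ F₁)⁻¹ := by group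
    _ = _ := by rw [e7]; group

lemma psi_eq {n : ℕ} {E₁ E₂ : X n ≃ X 1} (h1 : NM L E₁) (h2 : NM L E₂) (g : GG L hL)
    (hg : (g : Equiv.Perm (X 1)) = E₁.symm.trans E₂) : psi hL Ψ g = Ψ E₂ * (Ψ E₁)⁻¹ := by
  rw [psi]
  obtain ⟨a1, a2, a3⟩ := (mem_GG.1 g.2).choose_spec.choose_spec.choose_spec
  exact frac_unique Ψ hΨ a1 a2 h1 h2 hL (a3.symm.trans hg)

lemma psi_mul (g h : GG L hL) : psi hL Ψ (g * h) = psi hL Ψ g * psi hL Ψ h := by
  obtain ⟨g, hg⟩ := g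
  obtain ⟨h, hh⟩ := h
  obtain ⟨n, E₁, E₂, h1, h2, rfl⟩ := mem_GG.1 hg
  obtain ⟨m, F₁, F₂, h3, h4, rfl⟩ := mem_GG.1 hh
  obtain ⟨M, A, B, hA, hB, hAB⟩ := NM.cr hL h4 h1
  rw [psi_eq hL Ψ hΨ h1 h2 ⟨_, hg⟩ rfl, psi_eq hL Ψ hΨ h3 h4 ⟨_, hh⟩ rfl,
    psi_eq hL Ψ hΨ (hA.trans h3) (hB.trans h2) _ (by
      refine Equiv.ext fun z => ?_
      have h5 := Equiv.congr_fun hAB (A.symm (F₁.symm z))
      simp only [Equiv.trans_apply, Equiv.apply_symm_apply] at h5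
      simp only [Subgroup.coe_mul, Equiv.Perm.mul_apply, Equiv.trans_apply, Equiv.symm_trans_apply, h5,
        Equiv.symm_apply_apply]),
    hΨ _ _ hA h3, hΨ _ _ hB h2]
  have e1 := hΨ A F₂ hA h4
  rw [hAB, hΨ _ _ hB h1] at e1
  have e2 : Ψ B * (Ψ A)⁻¹ = (Ψ E₁)⁻¹ * Ψ F₂ := by
    rw [eq_inv_mul_iff_mul_eq, ← mul_assoc, e1]; group
  calc Ψ E₂ * Ψ B * (Ψ F₁ * Ψ A)⁻¹ = Ψ E₂ * (Ψ B * (Ψ A)⁻¹) * (Ψ F₁)⁻¹ := by group
    _ = _ := by rw [e2]; group

/-- the homomorphism. -/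
noncomputable def psiHom : GG L hL →* K := MonoidHom.mk' (psi hL Ψ) (psi_mul hL Ψ hΨ)

end

/-- fractions with more pieces are products of fractions with fewer pieces. -/
theorem generation (hL : ∀ q ∈ L, q.Prime) (h2 : 2 ∈ L) {B : ℕ} (hB : ∀ q ∈ L, q ≤ B) {n : ℕ}
    (hn : 5 * B + 2 ≤ n) (R : Subgroup (Equiv.Perm (X 1)))
    (hR : ∀ m, m ≤ n → ∀ E₁ E₂ : X m ≃ X 1, NM L E₁ → NM L E₂ → E₁.symm.trans E₂ ∈ R) :
    ∀ m, ∀ E₁ E₂ : X m ≃ X 1, NM L E₁ → NM L E₂ → E₁.symm.trans E₂ ∈ R := by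
  intro m
  induction m using Nat.strong_induction_on with
  | _ m ih =>
    intro E₁ E₂ h3 h4
    by_cases hm : m ≤ n
    · exact hR m hm E₁ E₂ h3 h4
    obtain ⟨x, D, hD, rfl⟩ := NM.last' hL h3 (by omega)
    obtain ⟨y, D', hD', rfl⟩ := NM.last' hL h4 (by omega)
    obtain ⟨w, hw1, hw2, -, -, -⟩ := exists_five h2 hB (by omega) x y y y y
    obtain ⟨Tw, hTw⟩ := exists_T hL h2 w.cm (by simp [Car.cm])
    have key : ∀ (x : Car L m) (D : X x.cm ≃ X 1), NM L D → Dj w x →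
        (x.ce.trans D).symm.trans (w.ce.trans Tw) ∈ R := by
      intro x D hD hwx
      obtain ⟨T', hT'⟩ := exists_T hL h2 (x.push w.ce hwx.fx).cm (by simp [Car.cm])
      have hP := pd_mc hL w x hwx
      have h5 := (hP.fac w (pd_has_left w x hwx)).nm
      have h6 := (hP.fac x (pd_has_right w x hwx)).nm
      have h7 := ih x.cm x.cm_lt D ((x.ce.symm.trans (pd w x hwx)).trans T') hD (h6.trans hT')
      have h8 := ih w.cm w.cm_lt ((w.ce.symm.trans (pd w x hwx)).trans T') Tw (h5.trans hT') hTw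
      have h9 := R.mul_mem h8 h7
      convert h9 using 1
      exact Equiv.ext fun z => by simp [Equiv.Perm.mul_apply]
    have h5 := key x D hD hw1
    have h6 := key y D' hD' hw2
    have h7 := R.mul_mem (R.inv_mem h6) h5
    convert h7 using 1
    refine Equiv.ext fun z => ?_
    simp only [Equiv.Perm.mul_apply, Equiv.trans_apply, Equiv.symm_trans_apply]
    rw [Equiv.Perm.inv_def]
    simp

/-- the group of fractions is finitely presented. -/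
theorem GG_fp (hL : ∀ q ∈ L, q.Prime) (h2 : 2 ∈ L) : Group.IsFinitelyPresented (GG L hL) := by
  obtain ⟨B, hB⟩ : ∃ B, ∀ q ∈ L, q ≤ B := ⟨L.sup id, fun q hq => Finset.le_sup (f := id) hq⟩
  set n₀ := 2 * (B * B) + 5 * B + 4 with hn₀
  choose T hT using exists_T hL h2
  obtain ⟨Ψ, hΨ, hΨ'⟩ := extend_all hL h2 hB (le_refl n₀) (taut (n₀ := n₀) T hT)
  have hinj : Injective (piHom hL T hT n₀) := by
    have hcomp : (psiHom hL Ψ hΨ).comp (piHom hL T hT n₀) = MonoidHom.id _ := by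
      refine PresentedGroup.ext ?_
      rintro ⟨⟨⟨⟨N, hN⟩, ⟨m, hm⟩⟩, f⟩, hf⟩
      have hN' : N ≤ n₀ := Nat.le_of_lt_succ hN
      have e1 : (PresentedGroup.of ⟨⟨(⟨N, hN⟩, ⟨m, hm⟩), f⟩, hf⟩ : PresentedGroup (rels n₀ T hT)) =
          PresentedGroup.mk _ (gen f hN' hf) := rfl
      rw [e1, MonoidHom.comp_apply, piHom_gen, MonoidHom.id_apply]
      change psi hL Ψ (pv hL T hT f hf) = _
      by_cases h0 : N = 0
      · rw [pv_zero _ _ _ _ _ h0]
        have e2 : psi hL Ψ 1 = 1 := map_one (psiHom hL Ψ hΨ)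
        rw [e2]
        have hm0 := NM.eq_zero f h0
        subst h0
        have hm0' : m = 0 := hm0
        subst hm0'
        have e3 : f.trans f = f := Equiv.ext fun z => z.1.elim0
        have e4 := (taut (n₀ := n₀) T hT).map f f hN' hf hf
        rw [e3] at e4
        rw [← taut_F T hT f hN' hf]
        have e5 := mul_left_cancel ((mul_one _).trans e4)
        exact e5
      · have hm0 : m ≠ 0 := NM.ne_zero f h0
        have hm' : m ≤ n₀ := hf.le.trans hN'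
        rw [psi_eq hL Ψ hΨ (hT N h0) (hf.trans (hT m hm0)) _ (pv_val hL T hT f hf h0), hΨ _ _ hf (hT m hm0),
          hΨ' _ hN', hΨ' _ hm', hΨ' _ hN', taut_T T hT m hm0 hm', taut_T T hT N h0 hN', taut_F T hT f hN' hf]
        simp
    intro a b hab
    have := congrArg (psiHom hL Ψ hΨ) hab
    have e : ∀ c, psiHom hL Ψ hΨ (piHom hL T hT n₀ c) = c := fun c => DFunLike.congr_fun hcomp c
    rwa [e, e] at this
  have hsurj : Surjective (piHom hL T hT n₀) := by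
    have hall : ∀ m, ∀ E₁ E₂ : X m ≃ X 1, NM L E₁ → NM L E₂ →
        E₁.symm.trans E₂ ∈ ((piHom hL T hT n₀).range.map (GG L hL).subtype) := by
      refine generation hL h2 hB (n := n₀) (by omega) _ ?_
      intro m hm E₁ E₂ h3 h4
      have hm0 : m ≠ 0 := by
        rintro rfl
        exact (E₁.symm (0, 0)).1.elim0
      have g1 : piHom hL T hT n₀ (PresentedGroup.mk _ (gen E₁ hm h3)) = pv hL T hT E₁ h3 := piHom_gen ..
      have g2 : piHom hL T hT n₀ (PresentedGroup.mk _ (gen E₂ hm h4)) = pv hL T hT E₂ h4 := piHom_gen ..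
      refine ⟨pv hL T hT E₂ h4 * (pv hL T hT E₁ h3)⁻¹, ?_, ?_⟩
      · rw [← g1, ← g2, ← map_inv, ← map_mul]
        exact ⟨_, rfl⟩
      · rw [Subgroup.coe_subtype, Subgroup.coe_mul, Subgroup.coe_inv, pv_val _ _ _ _ _ hm0, pv_val _ _ _ _ _ hm0]
        refine Equiv.ext fun z => ?_
        rw [Equiv.Perm.mul_apply, Equiv.Perm.inv_def]
        simp only [Equiv.trans_apply, Equiv.symm_trans_apply, Equiv.symm_symm, Equiv.symm_apply_apply]
        have h1 : T 1 (NM.ne_zero E₁ hm0) = Equiv.refl _ := NM.one hL (hT 1 _)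
        rw [h1]
        simp
    rintro ⟨g, hg⟩
    obtain ⟨n, E₁, E₂, h3, h4, rfl⟩ := mem_GG.1 hg
    obtain ⟨⟨g', hg'⟩, ⟨c, hc⟩, h5⟩ := hall n E₁ E₂ h3 h4
    refine ⟨c, ?_⟩
    rw [hc]
    exact Subtype.ext h5
  have := finite_gen L n₀ hL
  have hfr : Finite (rels n₀ T hT) := (finite_rels T hT hL).to_subtype
  exact Group.IsFinitelyPresented.equiv (MulEquiv.ofBijective _ ⟨hinj, hsurj⟩)

end Pool.Agent.W2helper9.CT
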