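import Pool.Agent.W2helper9.CT.Caret

/-!
# The last step of a natural map, and gluing trivial roots
-/

set_option autoImplicit false

namespace Pool.Agent.W2helper9.CT

open Function

variable {L : Finset ℕ}

lemma Car.ext' {N : ℕ} {c d : Car L N} (hp : c.p = d.p) (hx : ∀ s : Fin c.p, c.x s = d.x (Fin.cast hp s)) :
    c = d := by
  obtain ⟨p, hp1, pr, x, inj⟩ := c
  obtain ⟨q, hq1, qr, y, inj'⟩ := d
  simp only at hp
  subst hp
  have : x = y := funext hx
  subst this
  rfl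

/-- the atom seen from the source. -/
lemma exists_car {N m : ℕ} {a : X N ≃ X m} {r : Fin m} {p : ℕ} (hp : p ∈ L) (pr : p.Prime)
    (ha : Unif a (up r p)) : ∃ c : Car L N, Has a c.x := by
  have h1 : ∀ s : Fin p, ∃ j, rt a j = r ∧ off a j = (s : ℕ) := fun s =>
    ha.surj r (s : ℕ) (by positivity) (by simp)
  choose x hx hx' using h1
  refine ⟨⟨p, hp, pr, x, ?_⟩, r, fun s k => ?_⟩
  · intro s s' hss
    have h2 := hx' s
    have h3 := hx' s'
    rw [hss, h3] at h2
    ext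
    exact_mod_cast h2.symm
  · simp only
    rw [(ha (x s)).2.2, hx, hx']
    simp

/-- a natural map is a relabelling, or it starts with a caret. -/
theorem NM.last (hL : ∀ q ∈ L, q.Prime) {N m : ℕ} {E : X N ≃ X m} (hE : NM L E) :
    (∃ σ : Fin N ≃ Fin m, E = pm σ) ∨ ∃ (x : Car L N) (D : X x.cm ≃ X m), NM L D ∧ E = x.ce.trans D := by
  induction hE with
  | perm σ => exact Or.inl ⟨σ, rfl⟩
  | step f a r p hp ha hf ih =>
    right
    rcases ih with ⟨σ, rfl⟩ | ⟨x, D, hD, rfl⟩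
    · have h1 : Unif ((pm σ).trans a) (fun i => (fun _ => 1) i * up r p i) :=
        (unif_pm σ).comp ha fun j => rfl
      simp only [one_mul] at h1
      obtain ⟨c, hc⟩ := exists_car hp (hL p hp) h1
      refine ⟨c, c.ce.symm.trans ((pm σ).trans a), (MC.fac ⟨_, h1, sm_up hL r hp⟩ c hc).nm, ?_⟩
      ext z <;> simp
    · refine ⟨x, D.trans a, NM.step D a r p hp ha hD, ?_⟩
      ext z <;> simp

lemma NM.cls' (hL : ∀ q ∈ L, q.Prime) {N m : ℕ} {f : X N ≃ X m} (hf : NM L f) (j : Fin N) :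
    ∃ M : ℕ, 0 ≤ off f j ∧ off f j < M ∧ Sm L M ∧ ∀ k, f (j, k) = (rt f j, (M : ℤ) * k + off f j) := by
  obtain ⟨i, M, r, h0, h1, h2, h3⟩ := hf.cls hL j
  have e1 : rt f j = i := by rw [rt, h3]
  have e2 : off f j = r := by rw [off, h3]; simp
  rw [e1, e2]
  exact ⟨M, h0, h1, h2, h3⟩

lemma Fx.of_trans (hL : ∀ q ∈ L, q.Prime) {N m l : ℕ} {f : X N ≃ X m} {g : X m ≃ X l} (hf : NM L f)
    (hg : NM L g) {j : Fin N} (h : Fx (f.trans g) j) : Fx f j ∧ Fx g (rt f j) := by
  obtain ⟨M, h0, h1, h2, h3⟩ := hf.cls' hL j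
  obtain ⟨M', g0, g1, g2, g3⟩ := hg.cls' hL (rt f j)
  have e0 := h 0
  have e1 := h 1
  simp only [Equiv.trans_apply] at e0 e1
  rw [h3, g3] at e0 e1
  have e0' := congrArg Prod.snd e0
  have e1' := congrArg Prod.snd e1
  simp only at e0' e1'
  have hM : (0 : ℤ) < M := by have := h2.1; omega
  have hM' : (0 : ℤ) < M' := by have := g2.1; omega
  have h5 : (M' : ℤ) * M = 1 := by linear_combination e1' - e0'
  have hMM : (M : ℤ) = 1 := by nlinarith
  have hMM' : (M' : ℤ) = 1 := by nlinarith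
  have ho : off f j = 0 := by omega
  have ho' : off g (rt f j) = 0 := by omega
  constructor
  · intro k
    rw [h3, hMM, ho]; simp
  · intro k
    rw [g3, hMM', ho']; simp

lemma rt_trans {N m l : ℕ} {f : X N ≃ X m} {g : X m ≃ X l} {j : Fin N} (h : Fx f j) :
    rt (f.trans g) j = rt g (rt f j) := by
  simp only [rt, Equiv.trans_apply]
  rw [h 0, rt]

lemma Fx.trans {N m l : ℕ} {f : X N ≃ X m} {g : X m ≃ X l} {j : Fin N} (h : Fx f j) (h' : Fx g (rt f j)) :
    Fx (f.trans g) j := by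
  intro k
  rw [rt_trans h, Equiv.trans_apply, h, h']

/-- gluing trivial roots is compatible with natural maps. -/
theorem NM.glue (hL : ∀ q ∈ L, q.Prime) {N m : ℕ} {D : X N ≃ X m} (hD : NM L D) :
    ∀ (w : Car L N) (h : ∀ s, Fx D (w.x s)), NM L (w.ce.symm.trans (D.trans (w.push D h).ce)) := by
  induction hD with
  | perm σ =>
    intro w h
    have h1 : MC L ((pm σ).trans (w.push (pm σ) h).ce) :=
      MC.comp (unif_pm σ) (fun _ => Sm.one L) hL _ fun s => rfl
    refine (h1.fac w ⟨(w.push (pm σ) h).r, fun s k => ?_⟩).nm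
    rw [Equiv.trans_apply, h s]
    exact (w.push (pm σ) h).ce_x s k
  | @step m l D₁ a r p hp ha hD₁ ih =>
    intro w h
    have hnma : NM L a := MC.nm ⟨_, ha, sm_up hL r hp⟩
    have h1 : ∀ s, Fx D₁ (w.x s) ∧ Fx a (rt D₁ (w.x s)) := fun s => Fx.of_trans hL hD₁ hnma (h s)
    have hw : w.push (D₁.trans a) h = (w.push D₁ fun s => (h1 s).1).push a fun s => (h1 s).2 := by
      refine Car.ext' (c := w.push (D₁.trans a) h) (d := (w.push D₁ fun s => (h1 s).1).push a fun s => (h1 s).2)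
        rfl ?_
      intro s
      exact rt_trans (h1 s).1
    rw [hw]
    set w₁ := w.push D₁ fun s => (h1 s).1
    set w₂ := w₁.push a fun s => (h1 s).2
    have h2 := ih w fun s => (h1 s).1
    have h3 : MC L (a.trans w₂.ce) := MC.comp ha (sm_up hL r hp) hL _ fun s => ha.one_of_fx (h1 s).2
    have h4 : MC L (w₁.ce.symm.trans (a.trans w₂.ce)) := by
      refine h3.fac w₁ ⟨w₂.r, fun s k => ?_⟩
      rw [Equiv.trans_apply]
      have h5 : Fx a (w₁.x s) := (h1 s).2
      rw [h5]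
      exact w₂.ce_x s k
    have h5 := h2.trans h4.nm
    have h6 : (w.ce.symm.trans (D₁.trans w₁.ce)).trans (w₁.ce.symm.trans (a.trans w₂.ce)) =
        w.ce.symm.trans ((D₁.trans a).trans w₂.ce) := by
      ext z <;> simp
    rwa [h6] at h5

end Pool.Agent.W2helper9.CT
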