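import Pool.Agent.W2helper9.CT.Quot

/-!
# The group of fractions is the group generated by the class transpositions
-/

set_option autoImplicit false

namespace Pool.Agent.W2helper9.CT

open Function

variable {L : Finset ℕ}

/-- the algebra of the splitting operations. -/
lemma abs_claim {V : Type*} (lv : V → ℕ) (o2 o : V → V) (p : ℕ) (hp : 2 ≤ p) (inj2 : Injective o2)
    (inj : Injective o) (lev2 : ∀ x, lv (o2 x) + 1 = lv x + 2) (hlev : ∀ x, 1 ≤ lv x)
    (comm : ∀ x, 2 ≤ lv x → o (o2 x) = o2 (o x)) (grid : ∀ x, o2^[p] (o x) = o^[2] (o2 x)) :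
    ∀ x, o x = o2^[p - 1] x := by
  have commk : ∀ k x, 2 ≤ lv x → o (o2^[k] x) = o2^[k] (o x) := by
    intro k
    induction k with
    | zero => intro x _; rfl
    | succ k ih =>
      intro x hx
      rw [iterate_succ_apply, iterate_succ_apply, ih (o2 x) (by have := lev2 x; omega), comm x hx]
  have hp1 : p = (p - 1) + 1 := by omega
  have case1 : ∀ x, 2 ≤ lv x → o x = o2^[p - 1] x := by
    intro x hx
    have h1 := grid x
    rw [← commk p x hx] at h1
    have h2 := inj h1
    rw [comm x hx] at h2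
    have h3 : o2^[p] x = o2 (o2^[p - 1] x) := by
      conv_lhs => rw [hp1]
      rw [iterate_succ_apply']
    rw [h3] at h2
    exact (inj2 h2).symm
  intro x
  by_cases hx : 2 ≤ lv x
  · exact case1 x hx
  · have hy : 2 ≤ lv (o2 x) := by have := lev2 x; have := hlev x; omega
    have h1 := grid x
    rw [iterate_succ_apply', iterate_one, case1 _ hy, commk _ _ hy, case1 _ hy] at h1
    have h4 : o2^[p - 1] (o2^[p - 1] (o2 x)) = o2^[p] (o2^[p - 1] x) := by
      have e1 : o2^[p - 1] (o2 x) = o2^[p] x := by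
        conv_rhs => rw [hp1]
        rw [iterate_succ_apply]
      rw [e1, ← iterate_add_apply, ← iterate_add_apply, add_comm]
    rw [h4] at h1
    exact (inj2.iterate p) h1

section

variable (H : Subgroup (Equiv.Perm (X 1)))
  (hH : ∀ {n : ℕ} (E : X n ≃ X 1) (σ : Fin n ≃ Fin n), NM L E → E.symm.trans ((pm σ).trans E) ∈ H)

include hH

theorem op_two (hL : ∀ q ∈ L, q.Prime) (h2 : 2 ∈ L) {p : ℕ} (hp : p ∈ L) (x : Quotient (stp H hH)) :
    op H hH hL hp x = (op H hH hL h2)^[p - 1] x := by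
  refine abs_claim (lev H hH) (op H hH hL h2) (op H hH hL hp) p (hL p hp).two_le (op_inj H hH hL h2)
    (op_inj H hH hL hp) (lev_op H hH hL h2) ?_ (fun x hx => op_comm H hH hL hp h2 x hx)
    (fun x => op_grid H hH hL hp h2 x) x
  intro x
  induction x using Quotient.inductionOn with | _ A => ?_
  exact A.pos

theorem all_eq (hL : ∀ q ∈ L, q.Prime) (h2 : 2 ∈ L) : ∀ (n : ℕ) (A : NT L), A.n = n →
    Quotient.mk (stp H hH) A = (op H hH hL h2)^[n - 1] (Quotient.mk (stp H hH) ⟨1, Equiv.refl _, NM.refl 1⟩) := by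
  intro n
  induction n using Nat.strong_induction_on with
  | _ n ih =>
    intro A hA
    by_cases h1 : A.n = 1
    · obtain ⟨m, E, hE⟩ := A
      simp only at h1 hA
      subst h1
      have := NM.one hL hE
      subst this
      subst hA
      rfl
    · obtain ⟨x, D, hD, hE⟩ := NM.last' hL A.nm (by omega)
      have hSp : Sp x.p ⟨x.cm, D, hD⟩ A := ⟨x.hp, x.r, x.ce, x.unif, hE⟩
      have h3 := ih x.cm (by have := x.cm_lt; omega) ⟨x.cm, D, hD⟩ rfl
      rw [← op_eq H hH hL x.hp hSp, h3, op_two H hH hL h2 x.hp, ← iterate_add_apply]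
      congr 1
      have h4 := hSp.card
      simp only at h4
      have h5 : 1 ≤ x.cm := by simp [Car.cm]
      have h6 := x.pr.two_le
      omega

/-- the group of fractions is generated by the permutations of pieces. -/
theorem GG_le (hL : ∀ q ∈ L, q.Prime) (h2 : 2 ∈ L) : GG L hL ≤ H := by
  rintro g hg
  obtain ⟨n, E₁, E₂, h3, h4, rfl⟩ := mem_GG.1 hg
  have h5 := all_eq H hH hL h2 n ⟨n, E₁, h3⟩ rfl
  have h6 := all_eq H hH hL h2 n ⟨n, E₂, h4⟩ rfl
  have h7 : Q H (⟨n, E₁, h3⟩ : NT L) ⟨n, E₂, h4⟩ := Quotient.exact (s := stp H hH) (h5.trans h6.symm)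
  have h8 := h7.all H hH (Equiv.refl _)
  convert h8 using 1
  exact Equiv.ext fun z => rfl

end

end Pool.Agent.W2helper9.CT
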