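import Pool.Agent.W2helper9.CT.Base

/-!
# Natural maps
-/

set_option autoImplicit false

namespace Pool.Agent.W2helper9.CT

open Function

/-- modulus `p` at the root `r` and `1` elsewhere. -/
abbrev up {m : ℕ} (r : Fin m) (p : ℕ) : Fin m → ℕ := Function.update (fun _ => 1) r p

/-- natural maps. -/
inductive NM (L : Finset ℕ) : ∀ {N m : ℕ}, (X N ≃ X m) → Prop
  | perm {N m : ℕ} (σ : Fin N ≃ Fin m) : NM L (pm σ)
  | step {N m l : ℕ} (f : X N ≃ X m) (a : X m ≃ X l) (r : Fin l) (p : ℕ) (hp : p ∈ L) (ha : Unif a (up r p))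
      (hf : NM L f) : NM L (f.trans a)

variable {L : Finset ℕ}

lemma NM.refl (n : ℕ) : NM L (Equiv.refl (X n)) := by
  rw [← pm_refl]; exact NM.perm _

lemma sm_up (hL : ∀ q ∈ L, q.Prime) {m : ℕ} (r : Fin m) {p : ℕ} (hp : p ∈ L) (i : Fin m) : Sm L (up r p i) := by
  by_cases h : i = r
  · subst h; simpa using Sm.prime hL hp
  · simpa [up, h] using Sm.one L

/-- natural maps are piece-preserving and class-like. -/
lemma NM.cls (hL : ∀ q ∈ L, q.Prime) {N m : ℕ} {f : X N ≃ X m} (hf : NM L f) :
    ∀ j, ∃ i, ∃ M : ℕ, ∃ r : ℤ, 0 ≤ r ∧ r < M ∧ Sm L M ∧ ∀ k, f (j, k) = (i, (M : ℤ) * k + r) := by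
  induction hf with
  | perm σ => exact fun j => ⟨σ j, 1, 0, le_refl _, by norm_num, Sm.one L, fun k => by simp⟩
  | step f a r p hp ha hf ih =>
    intro j
    obtain ⟨i, M, s, h0, h1, h2, h3⟩ := ih j
    obtain ⟨g0, g1, g2⟩ := ha i
    have hdp : (0 : ℤ) < up r p (rt a i) := by exact_mod_cast ha.pos _
    refine ⟨rt a i, up r p (rt a i) * M, (up r p (rt a i) : ℤ) * s + off a i, by positivity, ?_,
      (sm_up hL r hp _).mul h2, fun k => ?_⟩
    · push_cast
      nlinarith
    · simp only [Equiv.trans_apply]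
      rw [h3, g2]
      refine Prod.ext rfl ?_
      simp only
      push_cast
      ring

lemma NM.le {N m : ℕ} {f : X N ≃ X m} (hf : NM L f) : m ≤ N := by
  induction hf with
  | perm σ =>
    have := Fintype.card_congr σ
    simp at this
    omega
  | @step m l f a r p hp ha hf ih =>
    have h1 := ha.card
    have h2 : l ≤ ∑ i, up r p i := by
      calc l = ∑ _i : Fin l, 1 := by simp
        _ ≤ _ := Finset.sum_le_sum fun i _ => (ha.pos i)
    omega

lemma sum_up {m : ℕ} (r : Fin m) (p : ℕ) : (∑ i, up r p i) + 1 = m + p := by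
  rw [Finset.sum_update_of_mem (Finset.mem_univ r)]
  simp only [Finset.sum_const, Finset.card_sdiff, smul_eq_mul, mul_one]
  have hm : 0 < m := r.pos
  simp
  omega

lemma NM.pm_trans {N m l : ℕ} (σ : Fin N ≃ Fin m) {f : X m ≃ X l} (hf : NM L f) : NM L ((pm σ).trans f) := by
  induction hf with
  | perm τ => exact NM.perm (σ.trans τ)
  | step f a r p hp ha hf ih => exact NM.step _ a r p hp ha ih

lemma NM.trans_pm {N m l : ℕ} {f : X N ≃ X m} (hf : NM L f) (σ : Fin m ≃ Fin l) : NM L (f.trans (pm σ)) := by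
  cases hf with
  | perm τ => exact NM.perm (τ.trans σ)
  | step f a r p hp ha hf =>
    have : Unif (a.trans (pm σ)) (up (σ r) p) := by
      apply unif_of
      intro j
      obtain ⟨g0, g1, g2⟩ := ha j
      refine ⟨σ (rt a j), off a j, g0, ?_, fun k => ?_⟩
      · convert g1 using 2
        simp [up, Function.update_apply]
      · simp only [Equiv.trans_apply]
        rw [g2]
        simp [up, Function.update_apply]
    exact NM.step f (a.trans (pm σ)) (σ r) p hp this hf

lemma NM.trans {N m l : ℕ} {f : X N ≃ X m} {g : X m ≃ X l} (hf : NM L f) (hg : NM L g) : NM L (f.trans g) := by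
  induction hg with
  | perm τ => exact hf.trans_pm τ
  | step g a r p hp ha hg ih => exact NM.step _ a r p hp ha ih

/-- uniform maps with smooth moduli are natural. -/
theorem Unif.nm : ∀ (t : ℕ) {N m : ℕ} {f : X N ≃ X m} {d : Fin m → ℕ}, N - m ≤ t →
    Unif f d → (∀ i, Sm L (d i)) → NM L f := by
  intro t
  induction t with
  | zero =>
    intro N m f d ht hf hd
    have hall : ∀ i, d i = 1 := by
      by_contra hcon
      push Not at hcon
      obtain ⟨i, hi⟩ := hcon
      have h1 := hf.card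
      have h2 : m < ∑ i, d i := by
        calc m = ∑ _i : Fin m, 1 := by simp
          _ < _ := Finset.sum_lt_sum (fun i _ => (hf.pos i)) ⟨i, Finset.mem_univ _, by
            have := hf.pos i; omega⟩
      omega
    obtain ⟨σ, rfl⟩ := hf.eq_pm hall
    exact NM.perm σ
  | succ t ih =>
    intro N m f d ht hf hd
    by_cases hall : ∀ i, d i = 1
    · obtain ⟨σ, rfl⟩ := hf.eq_pm hall
      exact NM.perm σ
    · push Not at hall
      obtain ⟨i, hi⟩ := hall
      obtain ⟨p, hp, hpd⟩ := Nat.exists_prime_and_dvd hi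
      have hpL : p ∈ L := (hd i).2 p hp hpd
      obtain ⟨M, a, ha⟩ := exists_unif' (up i p) (by
        intro i'
        by_cases h : i' = i
        · subst h; simpa using hp.pos
        · simp [up, h])
      have hdiv : ∀ i', up i p i' ∣ d i' := by
        intro i'
        by_cases h : i' = i
        · subst h; simpa using hpd
        · simp [up, h]
      have h1 := hf.div ha hdiv
      have h2 : M + 1 = m + p := by rw [ha.card]; exact sum_up i p
      have h3 : NM L (f.trans a.symm) := by
        refine ih ?_ h1 fun j => (hd _).div (hdiv _)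
        have := hp.two_le
        omega
      have h4 := NM.step (f.trans a.symm) a i p hpL ha h3
      have h5 : (f.trans a.symm).trans a = f := by ext x <;> simp
      rwa [h5] at h4

/-- uniform maps with smooth moduli. -/
def MC (L : Finset ℕ) {N m : ℕ} (f : X N ≃ X m) : Prop := ∃ d, Unif f d ∧ ∀ i, Sm L (d i)

lemma MC.nm {N m : ℕ} {f : X N ≃ X m} (h : MC L f) : NM L f :=
  Unif.nm _ (le_refl _) h.choose_spec.1 h.choose_spec.2

/-- the refinement lemma. -/
theorem NM.refine (hL : ∀ q ∈ L, q.Prime) {N m : ℕ} {E : X N ≃ X m} (hE : NM L E) :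
    ∀ {M : ℕ} (a : X M ≃ X m) (d : Fin m → ℕ), Unif a d → (∀ i, Sm L (d i)) →
      (∀ j k k', (a.symm (E (j, k))).1 = (a.symm (E (j, k'))).1) → NM L (E.trans a.symm) := by
  induction hE with
  | perm σ =>
    intro M a d ha hd h
    have h1 : ∀ i, d i = 1 := by
      intro i
      have h2 := h (σ.symm i) 1 0
      simp only [pm_apply, Equiv.apply_symm_apply] at h2
      rw [ha.symm_fst] at h2
      have h3 := h2.2
      simp only [sub_zero] at h3
      have h4 := Int.isUnit_iff.1 (isUnit_of_dvd_one h3)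
      omega
    obtain ⟨τ, rfl⟩ := ha.eq_pm h1
    rw [pm_symm, CT.pm_trans]
    exact NM.perm _
  | @step m l f a₁ r p hp ha₁ hf ih =>
    intro M a d ha hd h
    set D : Fin l → ℕ := fun i => Nat.lcm (d i) (up r p i) with hD
    have hDs : ∀ i, Sm L (D i) := fun i => (hd i).lcm (sm_up hL r hp i)
    obtain ⟨M', lm, hlm⟩ := exists_unif' D fun i => Nat.pos_of_ne_zero (hDs i).1
    have hc1 := hlm.div ha₁ (fun i => Nat.dvd_lcm_right (d i) (up r p i))
    have hc := hlm.div ha (fun i => Nat.dvd_lcm_left (d i) (up r p i))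
    have h1 : NM L (f.trans (lm.trans a₁.symm).symm) := by
      refine ih (lm.trans a₁.symm) _ hc1 (fun j => (hDs _).div (Nat.dvd_lcm_right (d _) (up r p _))) ?_
      intro j k k'
      have e1 : ∀ x, (lm.trans a₁.symm).symm x = lm.symm (a₁ x) := fun x => rfl
      rw [e1, e1]
      have e2 := h j k k'
      simp only [Equiv.trans_apply] at e2
      obtain ⟨i, Mo, s, -, -, -, h3⟩ := NM.cls hL hf j
      have e3 : (a₁.symm (a₁ (f (j, k)))).1 = (a₁.symm (a₁ (f (j, k')))).1 := by
        rw [Equiv.symm_apply_apply, Equiv.symm_apply_apply, h3, h3]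
      set y := a₁ (f (j, k))
      set y' := a₁ (f (j, k'))
      have e2' : (a.symm (y.1, y.2)).1 = (a.symm (y'.1, y'.2)).1 := e2
      have e3' : (a₁.symm (y.1, y.2)).1 = (a₁.symm (y'.1, y'.2)).1 := e3
      rw [ha.symm_fst] at e2'
      rw [ha₁.symm_fst] at e3'
      change (lm.symm (y.1, y.2)).1 = (lm.symm (y'.1, y'.2)).1
      rw [hlm.symm_fst]
      refine ⟨e2'.1, ?_⟩
      rw [hD]
      simp only
      have := Int.coe_lcm_dvd e2'.2 e3'.2
      simpa using this
    have h2 : NM L (lm.trans a.symm) :=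
      MC.nm ⟨_, hc, fun j => (hDs _).div (Nat.dvd_lcm_left (d _) (up r p _))⟩
    have h3 := h1.trans h2
    have h4 : (f.trans (lm.trans a₁.symm).symm).trans (lm.trans a.symm) = (f.trans a₁).trans a.symm := by
      ext x <;> simp
    rwa [h4] at h3

/-- common refinements with uniform maps. -/
theorem NM.common (hL : ∀ q ∈ L, q.Prime) {N m : ℕ} {E : X N ≃ X m} (hE : NM L E) :
    ∃ D, Sm L D ∧ ∀ {M : ℕ} (l : X M ≃ X m) (d : Fin m → ℕ), Unif l d → (∀ i, D ∣ d i) → (∀ i, Sm L (d i)) →
      NM L (l.trans E.symm) := by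
  induction hE with
  | perm σ =>
    refine ⟨1, Sm.one L, fun l d hl _ hs => ?_⟩
    rw [pm_symm]
    exact (MC.nm ⟨d, hl, hs⟩).trans_pm _
  | step f a r p hp ha hf ih =>
    obtain ⟨D, hD, h⟩ := ih
    refine ⟨p * D, (Sm.prime hL hp).mul hD, fun l d hl hd hs => ?_⟩
    have hdiv : ∀ i, up r p i ∣ d i := by
      intro i
      by_cases hi : i = r
      · subst hi
        simpa using (Dvd.intro _ rfl : p ∣ p * D).trans (hd i)
      · simp [up, hi]
    have h1 := hl.div ha hdiv
    have h2 : NM L ((l.trans a.symm).trans f.symm) := by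
      refine h _ _ h1 (fun j => ?_) fun j => (hs _).div (hdiv _)
      have h3 : up r p (rt a j) * D ∣ d (rt a j) := by
        by_cases hi : rt a j = r
        · rw [hi]; simpa using hd r
        · simp only [up, hi, ne_eq, not_false_eq_true, Function.update_of_ne, one_mul]
          exact (Dvd.intro_left p rfl : D ∣ p * D).trans (hd _)
      obtain ⟨c, hc⟩ := h3
      rw [hc, mul_assoc, Nat.mul_div_cancel_left _ (ha.pos _)]
      exact Dvd.intro _ rfl
    have h3 : (l.trans a.symm).trans f.symm = l.trans (f.trans a).symm := by ext x <;> simp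
    rwa [h3] at h2

/-- common right multiples of natural maps. -/
theorem NM.cr (hL : ∀ q ∈ L, q.Prime) {N N' m : ℕ} {E : X N ≃ X m} {F : X N' ≃ X m} (hE : NM L E)
    (hF : NM L F) : ∃ M, ∃ A : X M ≃ X N, ∃ B : X M ≃ X N', NM L A ∧ NM L B ∧ A.trans E = B.trans F := by
  obtain ⟨D, hD, h⟩ := hE.common hL
  obtain ⟨D', hD', h'⟩ := hF.common hL
  obtain ⟨M, l, hl⟩ := exists_unif' (fun _ : Fin m => D * D') fun _ => Nat.pos_of_ne_zero (hD.mul hD').1
  refine ⟨M, l.trans E.symm, l.trans F.symm, h l _ hl (fun _ => Dvd.intro _ rfl) fun _ => hD.mul hD',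
    h' l _ hl (fun _ => Dvd.intro_left _ rfl) fun _ => hD.mul hD', ?_⟩
  ext x <;> simp

end Pool.Agent.W2helper9.CT
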