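import Pool.Agent.W2helper9.CT.Step

/-!
# The group of fractions is finitely presented
-/

set_option autoImplicit false

namespace Pool.Agent.W2helper9.CT

open Function

variable {L : Finset ℕ}

lemma Unif.lt_of_up {N m : ℕ} {a : X N ≃ X m} {r : Fin m} {p : ℕ} (hp : p.Prime) (ha : Unif a (up r p)) :
    m < N := by
  have h1 : N + 1 = m + p := by rw [ha.card]; exact sum_up r p
  have := hp.two_le
  omega

/-- there are finitely many natural maps `X N ≃ X m`. -/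
theorem finite_nm (hL : ∀ q ∈ L, q.Prime) : ∀ (t N m : ℕ), N - m ≤ t → {f : X N ≃ X m | NM L f}.Finite := by
  have hat : ∀ (N m : ℕ), {a : X N ≃ X m | ∃ r p, p ∈ L ∧ Unif a (up r p)}.Finite := by
    intro N m
    have h1 : ∀ (r : Fin m) (p : ℕ), {a : X N ≃ X m | Unif a (up r p)}.Finite := by
      intro r p
      by_cases hne : ∃ a₀ : X N ≃ X m, Unif a₀ (up r p)
      · obtain ⟨a₀, ha₀⟩ := hne
        refine (Set.finite_range (fun σ : Fin N ≃ Fin N => (pm σ).trans a₀)).subset ?_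
        intro a ha
        have h2 := Unif.div (l := a) ha ha₀ fun i => dvd_rfl
        obtain ⟨σ, hσ⟩ := h2.eq_pm fun j => Nat.div_self (ha₀.pos _)
        exact ⟨σ, by simp only; rw [← hσ]; exact Equiv.ext fun z => by simp⟩
      · push Not at hne
        convert Set.finite_empty
        ext a
        simpa using hne a
    have h2 : {a : X N ≃ X m | ∃ r p, p ∈ L ∧ Unif a (up r p)} =
        ⋃ r : Fin m, ⋃ p ∈ L, {a : X N ≃ X m | Unif a (up r p)} := by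
      ext a; simp
    rw [h2]
    exact Set.finite_iUnion fun r => L.finite_toSet.biUnion fun p _ => h1 r p
  intro t
  induction t with
  | zero =>
    intro N m ht
    refine (Set.finite_range (fun σ : Fin N ≃ Fin m => pm σ)).subset ?_
    rintro f hf
    have hle := NM.le hf
    rcases hf with ⟨σ⟩ | ⟨f, a, r, p, hp, ha, hf⟩
    · exact ⟨σ, rfl⟩
    · exfalso
      have h1 := ha.lt_of_up (hL p hp)
      have h2 := hf.le
      omega
  | succ t ih =>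
    intro N m ht
    have h1 : {f : X N ≃ X m | NM L f} ⊆ Set.range (fun σ : Fin N ≃ Fin m => pm σ) ∪
        ⋃ k ∈ Finset.Ioc m N, Set.image2 (fun (f : X N ≃ X k) (a : X k ≃ X m) => f.trans a)
          {f | NM L f} {a | ∃ r p, p ∈ L ∧ Unif a (up r p)} := by
      rintro f hf
      rcases hf with ⟨σ⟩ | ⟨f, a, r, p, hp, ha, hf⟩
      · exact Or.inl ⟨σ, rfl⟩
      · right
        rename_i k
        have h1 := ha.lt_of_up (hL p hp)
        have h2 := hf.le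
        simp only [Set.mem_iUnion]
        exact ⟨_, Finset.mem_Ioc.2 ⟨h1, h2⟩, f, hf, a, ⟨r, p, hp, ha⟩, rfl⟩
    refine Set.Finite.subset ((Set.finite_range _).union ?_) h1
    refine (Finset.Ioc m N).finite_toSet.biUnion fun k hk => ?_
    have hk' := Finset.mem_Ioc.1 (Finset.mem_coe.1 hk)
    exact (ih N k (by omega)).image2 _ (hat k m)

/-- base points. -/
lemma exists_T (hL : ∀ q ∈ L, q.Prime) (h2 : 2 ∈ L) : ∀ n, n ≠ 0 → ∃ T : X n ≃ X 1, NM L T := by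
  intro n
  induction n using Nat.strong_induction_on with
  | _ n ih =>
    intro hn
    by_cases h1 : n = 1
    · subst h1; exact ⟨Equiv.refl _, NM.refl 1⟩
    · obtain ⟨w, -, -⟩ := exists_pair h2 (∅ : Finset (Fin n)) (by simp; omega)
      obtain ⟨T, hT⟩ := ih w.cm w.cm_lt (by simp [Car.cm])
      exact ⟨w.ce.trans T, (w.nm hL).trans hT⟩

lemma NM.one (hL : ∀ q ∈ L, q.Prime) {f : X 1 ≃ X 1} (hf : NM L f) : f = Equiv.refl _ := by
  rcases hf.last hL with ⟨σ, rfl⟩ | ⟨x, D, -, -⟩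
  · rw [Subsingleton.elim σ (Equiv.refl _), pm_refl]
  · exfalso
    have := x.le
    have := x.pr.two_le
    omega

lemma NM.ne_zero {N m : ℕ} (f : X N ≃ X m) (hN : N ≠ 0) : m ≠ 0 := by
  rintro rfl
  exact (f (⟨0, Nat.pos_of_ne_zero hN⟩, 0)).1.elim0

lemma NM.eq_zero {N m : ℕ} (f : X N ≃ X m) (hN : N = 0) : m = 0 := by
  by_contra h
  subst hN
  exact (f.symm (⟨0, Nat.pos_of_ne_zero h⟩, 0)).1.elim0

/-- the group of fractions. -/
def GG (L : Finset ℕ) (hL : ∀ q ∈ L, q.Prime) : Subgroup (Equiv.Perm (X 1)) where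
  carrier := {g | ∃ n, ∃ E₁ E₂ : X n ≃ X 1, NM L E₁ ∧ NM L E₂ ∧ g = E₁.symm.trans E₂}
  mul_mem' := by
    rintro g h ⟨n, E₁, E₂, h1, h2, rfl⟩ ⟨m, F₁, F₂, h3, h4, rfl⟩
    obtain ⟨M, A, B, hA, hB, hAB⟩ := NM.cr hL h4 h1
    refine ⟨M, A.trans F₁, B.trans E₂, hA.trans h3, hB.trans h2, Equiv.ext fun z => ?_⟩
    have h5 := Equiv.congr_fun hAB (A.symm (F₁.symm z))
    simp only [Equiv.trans_apply, Equiv.apply_symm_apply] at h5
    simp only [Equiv.Perm.mul_apply, Equiv.trans_apply, Equiv.symm_trans_apply, h5, Equiv.symm_apply_apply]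
  one_mem' := ⟨1, Equiv.refl _, Equiv.refl _, NM.refl 1, NM.refl 1, rfl⟩
  inv_mem' := by
    rintro g ⟨n, E₁, E₂, h1, h2, rfl⟩
    exact ⟨n, E₂, E₁, h2, h1, rfl⟩

lemma mem_GG {hL : ∀ q ∈ L, q.Prime} {g : Equiv.Perm (X 1)} :
    g ∈ GG L hL ↔ ∃ n, ∃ E₁ E₂ : X n ≃ X 1, NM L E₁ ∧ NM L E₂ ∧ g = E₁.symm.trans E₂ := Iff.rfl

section

variable (L) (n₀ : ℕ)

/-- the generators. -/
def Gen : Type := {t : Σ a : Fin (n₀ + 1) × Fin (n₀ + 1), (X (a.1 : ℕ) ≃ X (a.2 : ℕ)) // NM L t.2}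

lemma finite_gen (hL : ∀ q ∈ L, q.Prime) : Finite (Gen L n₀) := by
  have h1 : ∀ a : Fin (n₀ + 1) × Fin (n₀ + 1), Finite {f : X (a.1 : ℕ) ≃ X (a.2 : ℕ) // NM L f} := fun a =>
    (finite_nm hL _ _ _ (le_refl _)).to_subtype
  refine Finite.of_injective (β := Σ a : Fin (n₀ + 1) × Fin (n₀ + 1), {f : X (a.1 : ℕ) ≃ X (a.2 : ℕ) // NM L f})
    (fun t => ⟨t.1.1, t.1.2, t.2⟩) ?_
  rintro ⟨⟨a, f⟩, hf⟩ ⟨⟨b, g⟩, hg⟩ h
  simp only [Sigma.mk.injEq] at h
  obtain ⟨h1, h2⟩ := h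
  subst h1
  simp only [heq_eq_eq, Subtype.mk.injEq] at h2
  subst h2
  rfl

variable {L n₀}

/-- the generator of a natural map. -/
def gen {N m : ℕ} (f : X N ≃ X m) (hN : N ≤ n₀) (hf : NM L f) : FreeGroup (Gen L n₀) :=
  FreeGroup.of ⟨⟨(⟨N, Nat.lt_succ_of_le hN⟩, ⟨m, Nat.lt_succ_of_le (hf.le.trans hN)⟩), f⟩, hf⟩

variable (T : ∀ n, n ≠ 0 → (X n ≃ X 1)) (hT : ∀ n hn, NM L (T n hn))

/-- the relations. -/
def rels (n₀ : ℕ) (T : ∀ n, n ≠ 0 → (X n ≃ X 1)) (hT : ∀ n hn, NM L (T n hn)) : Set (FreeGroup (Gen L n₀)) :=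
  {r | ∃ (N m l : ℕ) (f : X N ≃ X m) (g : X m ≃ X l) (hN : N ≤ n₀) (hf : NM L f) (hg : NM L g),
    r = (gen (f.trans g) hN (hf.trans hg))⁻¹ * (gen g (hf.le.trans hN) hg * gen f hN hf)} ∪
  {r | ∃ (n : ℕ) (h0 : n ≠ 0) (hn : n ≤ n₀), r = gen (T n h0) hn (hT n h0)}

lemma finite_rels (hL : ∀ q ∈ L, q.Prime) : (rels n₀ T hT).Finite := by
  have := finite_gen L n₀ hL
  refine Set.Finite.union ?_ ?_
  · refine (Set.finite_range (fun t : Gen L n₀ × Gen L n₀ × Gen L n₀ =>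
      (FreeGroup.of t.1)⁻¹ * (FreeGroup.of t.2.1 * FreeGroup.of t.2.2))).subset ?_
    rintro r ⟨N, m, l, f, g, hN, hf, hg, rfl⟩
    exact ⟨(_, _, _), rfl⟩
  · refine (Set.finite_range (fun t : Gen L n₀ => FreeGroup.of t)).subset ?_
    rintro r ⟨n, h0, hn, rfl⟩
    exact ⟨_, rfl⟩

open Classical in
/-- the tautological functor. -/
noncomputable def taut : Fun L n₀ (PresentedGroup (rels n₀ T hT)) where
  F := fun {N _} f => if h : N ≤ n₀ ∧ NM L f then PresentedGroup.mk _ (gen f h.1 h.2) else 1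
  map := by
    intro N m l f g hN hf hg
    rw [dif_pos ⟨hN, hf.trans hg⟩, dif_pos ⟨hf.le.trans hN, hg⟩, dif_pos ⟨hN, hf⟩, ← map_mul]
    rw [← inv_mul_eq_one, ← map_inv, ← map_mul]
    refine (PresentedGroup.mk_eq_one_iff).2 ?_
    exact Subgroup.subset_normalClosure (Or.inl ⟨N, m, l, f, g, hN, hf, hg, rfl⟩)

lemma taut_F {N m : ℕ} (f : X N ≃ X m) (hN : N ≤ n₀) (hf : NM L f) :
    (taut (n₀ := n₀) T hT).F f = PresentedGroup.mk _ (gen f hN hf) := by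
  simp only [taut]
  rw [dif_pos ⟨hN, hf⟩]

lemma taut_T (n : ℕ) (h0 : n ≠ 0) (hn : n ≤ n₀) : (taut (n₀ := n₀) T hT).F (T n h0) = 1 := by
  rw [taut_F T hT _ hn (hT n h0)]
  exact (PresentedGroup.mk_eq_one_iff).2 (Subgroup.subset_normalClosure (Or.inr ⟨n, h0, hn, rfl⟩))

end

end Pool.Agent.W2helper9.CT
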