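import Pool.Agent.W2helper9.CT.Iso

/-!
# The group of fractions is generated by the permutations of pieces
-/

set_option autoImplicit false

namespace Pool.Agent.W2helper9.CT

open Function

variable {L : Finset ℕ}

/-- natural maps onto one copy. -/
structure NT (L : Finset ℕ) where
  /-- number of pieces -/
  n : ℕ
  /-- the map -/
  E : X n ≃ X 1
  nm : NM L E

lemma NT.pos (A : NT L) : 0 < A.n := (A.E.symm (0, 0)).1.pos

/-- lifting along a uniform map. -/
def NT.lift (A : NT L) {N : ℕ} (l : X N ≃ X A.n) (h : MC L l) : NT L := ⟨N, l.trans A.E, h.nm.trans A.nm⟩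

lemma lift_E (A : NT L) {N : ℕ} (l : X N ≃ X A.n) (h : MC L l) : (A.lift l h).E = l.trans A.E := rfl

section

variable (H : Subgroup (Equiv.Perm (X 1)))
  (hH : ∀ {n : ℕ} (E : X n ≃ X 1) (σ : Fin n ≃ Fin n), NM L E → E.symm.trans ((pm σ).trans E) ∈ H)

/-- equality up to `H` and relabelling. -/
def Q (A B : NT L) : Prop := ∃ τ : Fin A.n ≃ Fin B.n, A.E.symm.trans ((pm τ).trans B.E) ∈ H

lemma mul_mem' {f g : X 1 ≃ X 1} (hf : f ∈ H) (hg : g ∈ H) : f.trans g ∈ H := H.mul_mem hg hf

include hH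

lemma Q.refl (A : NT L) : Q H A A := ⟨Equiv.refl _, hH A.E _ A.nm⟩

omit hH in
lemma Q.symm {A B : NT L} (h : Q H A B) : Q H B A := by
  obtain ⟨τ, h⟩ := h
  refine ⟨τ.symm, ?_⟩
  convert H.inv_mem h using 1
  exact Equiv.ext fun z => by rw [Equiv.Perm.inv_def]; rfl

omit hH in
lemma Q.trans {A B C : NT L} (h : Q H A B) (h' : Q H B C) : Q H A C := by
  obtain ⟨τ, h⟩ := h
  obtain ⟨τ', h'⟩ := h'
  refine ⟨τ.trans τ', ?_⟩
  convert mul_mem' H h h' using 1
  exact Equiv.ext fun z => by simp [← pm_trans]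

lemma Q.all {A B : NT L} (h : Q H A B) (τ' : Fin A.n ≃ Fin B.n) : A.E.symm.trans ((pm τ').trans B.E) ∈ H := by
  obtain ⟨τ, h⟩ := h
  convert mul_mem' H h (hH B.E (τ.symm.trans τ') B.nm) using 1
  exact Equiv.ext fun z => by
    simp only [← pm_trans, ← pm_symm, Equiv.trans_apply, Equiv.symm_apply_apply]

/-- `B` is obtained from `A` by splitting one piece into `p` pieces. -/
def Sp (p : ℕ) (A B : NT L) : Prop :=
  p ∈ L ∧ ∃ (r : Fin A.n) (a : X B.n ≃ X A.n), Unif a (up r p) ∧ B.E = a.trans A.E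

omit hH in
lemma unif_trans_pm {N m l : ℕ} {a : X N ≃ X m} {r : Fin m} {p : ℕ} (ha : Unif a (up r p)) (σ : Fin m ≃ Fin l) :
    Unif (a.trans (pm σ)) (up (σ r) p) := by
  apply unif_of
  intro j
  obtain ⟨g0, g1, g2⟩ := ha j
  refine ⟨σ (rt a j), off a j, g0, ?_, fun k => ?_⟩
  · convert g1 using 2
    simp [up, Function.update_apply]
  · simp only [Equiv.trans_apply]
    rw [g2]
    simp [up, Function.update_apply]

omit hH in
lemma unif_same {N N' m : ℕ} {a : X N ≃ X m} {b : X N' ≃ X m} {d : Fin m → ℕ} (ha : Unif a d) (hb : Unif b d) :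
    ∃ ρ : Fin N ≃ Fin N', a = (pm ρ).trans b := by
  have h1 := Unif.div ha hb fun i => dvd_rfl
  obtain ⟨ρ, hρ⟩ := h1.eq_pm fun j => Nat.div_self (hb.pos _)
  exact ⟨ρ, by rw [← hρ]; exact Equiv.ext fun z => by simp⟩

omit hH in
lemma Sp.card {p : ℕ} {A B : NT L} (h : Sp p A B) : B.n + 1 = A.n + p := by
  obtain ⟨-, r, a, ha, -⟩ := h
  rw [ha.card]
  exact sum_up r p

lemma Sp.unique {p : ℕ} {A B C : NT L} (h : Sp p A B) (h' : Sp p A C) : Q H B C := by
  obtain ⟨-, r, a, ha, hB⟩ := h
  obtain ⟨-, r', b, hb, hC⟩ := h'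
  set σ := Equiv.swap r r' with hσ
  have h1 : Unif (b.trans (pm σ)) (up r p) := by
    have := unif_trans_pm hb σ
    rwa [hσ, Equiv.swap_apply_right] at this
  obtain ⟨ρ, hρ⟩ := unif_same ha h1
  refine ⟨ρ, ?_⟩
  have h2 := H.inv_mem (hH A.E σ A.nm)
  convert h2 using 1
  rw [hB, hC, hρ]
  refine Equiv.ext fun z => ?_
  rw [Equiv.Perm.inv_def]
  simp only [Equiv.trans_apply, Equiv.symm_trans_apply, Equiv.symm_symm]
  simp

lemma Sp.congr (hL : ∀ q ∈ L, q.Prime) {p : ℕ} {A A' B B' : NT L} (hQ : Q H A A') (h : Sp p A B)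
    (h' : Sp p A' B') : Q H B B' := by
  obtain ⟨τ, hτ⟩ := hQ
  obtain ⟨hp, r, a, ha, hB⟩ := h
  have h1 := unif_trans_pm ha τ
  have hmc : MC L (a.trans (pm τ)) := ⟨_, h1, sm_up hL _ hp⟩
  have h2 : Sp p A' (A'.lift (a.trans (pm τ)) hmc) := ⟨hp, _, _, h1, rfl⟩
  have h3 : Q H B (A'.lift (a.trans (pm τ)) hmc) := by
    refine ⟨Equiv.refl _, ?_⟩
    convert hτ using 1
    rw [hB, lift_E]
    exact Equiv.ext fun z => by
      simp only [Equiv.trans_apply, Equiv.symm_trans_apply]
      change A'.E (pm τ (a (a.symm (A.E.symm z)))) = _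
      rw [Equiv.apply_symm_apply]
  exact h3.trans H (Sp.unique H hH h2 h')

lemma Sp.cancel {p : ℕ} {A A' B B' : NT L} (hQ : Q H B B') (h : Sp p A B) (h' : Sp p A' B') : Q H A A' := by
  have hc1 := h.card
  have hc2 := h'.card
  have hc3 : B.n = B'.n := by
    obtain ⟨τ, -⟩ := hQ
    simpa using Fintype.card_congr τ
  have hn : A.n = A'.n := by omega
  obtain ⟨-, r, a, ha, hB⟩ := h
  obtain ⟨-, r', b, hb, hB'⟩ := h'
  set τ : Fin A.n ≃ Fin A'.n := (finCongr hn).trans (Equiv.swap (finCongr hn r) r') with hτ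
  have hτr : τ r = r' := by simp [hτ]
  have h1 := unif_trans_pm ha τ
  rw [hτr] at h1
  obtain ⟨ρ, hρ⟩ := unif_same h1 hb
  refine ⟨τ, ?_⟩
  convert hQ.all H hH ρ using 1
  rw [hB, hB']
  refine Equiv.ext fun z => ?_
  have e1 : ∀ y, pm τ (a y) = b (pm ρ y) := fun y => Equiv.congr_fun hρ y
  simp only [Equiv.trans_apply, Equiv.symm_trans_apply, ← e1, Equiv.apply_symm_apply]

/-- the equivalence relation. -/
def stp : Setoid (NT L) where
  r := Q H
  iseqv := ⟨Q.refl H hH, fun h => h.symm H, fun h h' => h.trans H h'⟩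

omit hH in
lemma exists_sp (hL : ∀ q ∈ L, q.Prime) {p : ℕ} (hp : p ∈ L) (A : NT L) : ∃ B : NT L, Sp p A B := by
  obtain ⟨N, a, ha⟩ := exists_unif' (up (⟨0, A.pos⟩ : Fin A.n) p) fun i => Nat.pos_of_ne_zero (sm_up hL _ hp i).1
  exact ⟨A.lift a ⟨_, ha, sm_up hL _ hp⟩, hp, _, a, ha, rfl⟩

/-- the splitting operation. -/
noncomputable def op (hL : ∀ q ∈ L, q.Prime) {p : ℕ} (hp : p ∈ L) (x : Quotient (stp H hH)) :
    Quotient (stp H hH) :=
  Quotient.lift (fun A => (Quotient.mk (stp H hH) (exists_sp hL hp A).choose))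
    (fun A B hAB => Quotient.sound (Sp.congr H hH hL hAB (exists_sp hL hp A).choose_spec
      (exists_sp hL hp B).choose_spec)) x

lemma op_eq (hL : ∀ q ∈ L, q.Prime) {p : ℕ} (hp : p ∈ L) {A B : NT L} (h : Sp p A B) :
    op H hH hL hp (Quotient.mk (stp H hH) A) = Quotient.mk (stp H hH) B :=
  Quotient.sound (Sp.unique H hH (exists_sp hL hp A).choose_spec h)

lemma op_inj (hL : ∀ q ∈ L, q.Prime) {p : ℕ} (hp : p ∈ L) : Injective (op H hH hL hp) := by
  intro x y
  induction x using Quotient.inductionOn with | _ A => ?_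
  induction y using Quotient.inductionOn with | _ B => ?_
  intro h
  obtain ⟨A', hA⟩ := exists_sp hL hp A
  obtain ⟨B', hB⟩ := exists_sp hL hp B
  rw [op_eq H hH hL hp hA, op_eq H hH hL hp hB] at h
  exact Quotient.sound (Sp.cancel H hH (Quotient.exact h) hA hB)

/-- the number of pieces. -/
def lev (x : Quotient (stp (L := L) H hH)) : ℕ :=
  Quotient.lift (fun A => A.n) (fun A B (h : Q H A B) => by
    obtain ⟨τ, -⟩ := h
    simpa using Fintype.card_congr τ) x

lemma lev_op (hL : ∀ q ∈ L, q.Prime) {p : ℕ} (hp : p ∈ L) (x : Quotient (stp H hH)) :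
    lev H hH (op H hH hL hp x) + 1 = lev H hH x + p := by
  induction x using Quotient.inductionOn with | _ A => ?_
  obtain ⟨A', hA⟩ := exists_sp hL hp A
  rw [op_eq H hH hL hp hA]
  exact hA.card

/-- the class of a uniform refinement into pieces with relative moduli `1` and `q`. -/
lemma chain (hL : ∀ q ∈ L, q.Prime) {q : ℕ} (hq : q ∈ L) : ∀ (k : ℕ) (A : NT L) {N : ℕ} (l : X N ≃ X A.n)
    (d : Fin A.n → ℕ) (_ : Unif l d) (_ : ∀ i, d i = 1 ∨ d i = q) (_ : N = A.n + k * (q - 1)) (hm : MC L l),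
    Quotient.mk (stp H hH) (A.lift l hm) = (op H hH hL hq)^[k] (Quotient.mk (stp H hH) A) := by
  intro k
  induction k with
  | zero =>
    intro A N l d hl hd hN hm
    have hall : ∀ i, d i = 1 := by
      by_contra hcon
      push Not at hcon
      obtain ⟨i, hi⟩ := hcon
      have h1 := hl.card
      have h2 : A.n < ∑ i, d i := by
        calc A.n = ∑ _i : Fin A.n, 1 := by simp
          _ < _ := Finset.sum_lt_sum (fun i _ => (hl.pos i)) ⟨i, Finset.mem_univ _, by
            have := hl.pos i; omega⟩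
      omega
    obtain ⟨σ, rfl⟩ := hl.eq_pm hall
    refine Quotient.sound ⟨σ, ?_⟩
    have h1 := H.one_mem
    convert h1 using 1
    rw [lift_E]
    exact Equiv.ext fun z => by
      change A.E (pm σ ((pm σ).symm (A.E.symm z))) = z
      rw [Equiv.apply_symm_apply, Equiv.apply_symm_apply]
  | succ k ih =>
    intro A N l d hl hd hN hm
    have hq2 := (hL q hq).two_le
    obtain ⟨i, hi⟩ : ∃ i, d i = q := by
      by_contra hcon
      push Not at hcon
      have h1 : ∀ i, d i = 1 := fun i => (hd i).resolve_right (hcon i)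
      have h2 := hl.card
      simp only [h1, Finset.sum_const, Finset.card_univ, Fintype.card_fin, smul_eq_mul, mul_one] at h2
      have h3 : 1 ≤ (k + 1) * (q - 1) := Nat.mul_pos (by omega) (by omega)
      omega
    obtain ⟨M, a, ha⟩ := exists_unif' (up i q) fun j => Nat.pos_of_ne_zero (sm_up hL i hq j).1
    have hdiv : ∀ j, up i q j ∣ d j := by
      intro j
      by_cases hj : j = i
      · subst hj; simp [hi]
      · simp [up, hj]
    have hM : M + 1 = A.n + q := by rw [ha.card]; exact sum_up i q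
    have hla := hl.div ha hdiv
    set B := A.lift a ⟨_, ha, sm_up hL i hq⟩ with hB
    have hSp : Sp q A B := ⟨hq, i, a, ha, rfl⟩
    have hd' : ∀ j : Fin M, d (rt a j) / up i q (rt a j) = 1 ∨ d (rt a j) / up i q (rt a j) = q := by
      intro j
      by_cases hj : rt a j = i
      · left; rw [hj, hi]; simp [(hL q hq).pos]
      · simp only [up, Function.update_of_ne hj, Nat.div_one]; exact hd _
    have hN' : N = B.n + k * (q - 1) := by
      have h1 : B.n = M := rfl
      have h2 : (k + 1) * (q - 1) = k * (q - 1) + (q - 1) := by ring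
      omega
    obtain ⟨d₀, hd₀, hs₀⟩ := hm
    have hm' : MC L (l.trans a.symm) := ⟨_, hla, fun j => by
      rcases hd' j with h | h
      · rw [h]; exact Sm.one L
      · rw [h]; exact Sm.prime hL hq⟩
    have h1 := ih B (l.trans a.symm) _ hla hd' hN' hm'
    rw [Function.iterate_succ_apply, op_eq H hH hL hq hSp, ← h1]
    congr 1
    simp only [NT.lift, NT.mk.injEq, heq_eq_eq, true_and]
    exact Equiv.ext fun z => by
      change A.E (l z) = A.E (a (a.symm (l z)))
      rw [Equiv.apply_symm_apply]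

/-- operations at different pieces commute. -/
lemma op_comm (hL : ∀ q ∈ L, q.Prime) {p q : ℕ} (hp : p ∈ L) (hq : q ∈ L) (x : Quotient (stp H hH))
    (hx : 2 ≤ lev H hH x) : op H hH hL hp (op H hH hL hq x) = op H hH hL hq (op H hH hL hp x) := by
  induction x using Quotient.inductionOn with | _ A => ?_
  have hn : 2 ≤ A.n := hx
  have key : ∀ {p q : ℕ} (hp : p ∈ L) (hq : q ∈ L) (r r' : Fin A.n) (_ : r ≠ r') {N : ℕ} (l : X N ≃ X A.n)
      (_ : Unif l (fun i => up r p i * up r' q i)) (hm : MC L l),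
      Quotient.mk (stp H hH) (A.lift l hm) = op H hH hL hq (op H hH hL hp (Quotient.mk (stp H hH) A)) := by
    intro p q hp hq r r' hrr N l hl hm
    obtain ⟨M, a, ha⟩ := exists_unif' (up r p) fun j => Nat.pos_of_ne_zero (sm_up hL r hp j).1
    have hla := hl.div ha fun i => Dvd.intro _ rfl
    have hM : M + 1 = A.n + p := by rw [ha.card]; exact sum_up r p
    set B := A.lift a ⟨_, ha, sm_up hL r hp⟩ with hB
    have hSp : Sp p A B := ⟨hp, r, a, ha, rfl⟩
    have hval : ∀ j : Fin M, up r p (rt a j) * up r' q (rt a j) / up r p (rt a j) = up r' q (rt a j) := fun j =>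
      Nat.mul_div_cancel_left _ (ha.pos _)
    have hd' : ∀ j : Fin M, up r p (rt a j) * up r' q (rt a j) / up r p (rt a j) = 1 ∨
        up r p (rt a j) * up r' q (rt a j) / up r p (rt a j) = q := by
      intro j
      rw [hval]
      by_cases hj : rt a j = r'
      · right; rw [hj]; simp
      · left; simp [up, hj]
    have hm' : MC L (l.trans a.symm) := ⟨_, hla, fun j => by
      rcases hd' j with h | h
      · rw [h]; exact Sm.one L
      · rw [h]; exact Sm.prime hL hq⟩
    have hN : N = B.n + 1 * (q - 1) := by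
      have h1 : B.n = M := rfl
      have h2 : N = ∑ i, up r p i * up r' q i := hl.card
      have h3 : ∀ i, up r p i * up r' q i + 1 = up r p i + up r' q i := by
        intro i
        by_cases h : i = r
        · subst h
          simp [up, hrr]
        · simp [up, h]; ring
      have h4 : (∑ i, (up r p i * up r' q i + 1)) = ∑ i, (up r p i + up r' q i) :=
        Finset.sum_congr rfl fun i _ => h3 i
      rw [Finset.sum_add_distrib, Finset.sum_add_distrib] at h4
      simp only [Finset.sum_const, Finset.card_univ, Fintype.card_fin, smul_eq_mul, mul_one] at h4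
      have h5 := sum_up r p
      have h6 := sum_up r' q
      have hq2 := (hL q hq).two_le
      omega
    have h1 := chain H hH hL hq 1 B (l.trans a.symm) _ hla hd' hN hm'
    rw [Function.iterate_one] at h1
    rw [op_eq H hH hL hp hSp, ← h1]
    congr 1
    simp only [NT.lift, NT.mk.injEq, heq_eq_eq, true_and]
    exact Equiv.ext fun z => by
      change A.E (l z) = A.E (a (a.symm (l z)))
      rw [Equiv.apply_symm_apply]
  set r : Fin A.n := ⟨0, by omega⟩ with hr
  set r' : Fin A.n := ⟨1, by omega⟩ with hr'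
  have hrr : r ≠ r' := by simp [hr, hr']
  have hsm : ∀ i, Sm L (up r p i * up r' q i) := fun i => (sm_up hL r hp i).mul (sm_up hL r' hq i)
  obtain ⟨N, l, hl⟩ := exists_unif' (fun i => up r p i * up r' q i) fun i => Nat.pos_of_ne_zero (hsm i).1
  have hm : MC L l := ⟨_, hl, hsm⟩
  have h1 := key hp hq r r' hrr l hl hm
  have h2 := key hq hp r' r hrr.symm l (by simpa only [mul_comm] using hl) hm
  rw [← h1, ← h2]

/-- the grid relation. -/
lemma op_grid (hL : ∀ q ∈ L, q.Prime) {p q : ℕ} (hp : p ∈ L) (hq : q ∈ L) (x : Quotient (stp H hH)) :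
    (op H hH hL hq)^[p] (op H hH hL hp x) = (op H hH hL hp)^[q] (op H hH hL hq x) := by
  induction x using Quotient.inductionOn with | _ A => ?_
  have key : ∀ {p q : ℕ} (hp : p ∈ L) (hq : q ∈ L) (r : Fin A.n) {N : ℕ} (l : X N ≃ X A.n)
      (_ : Unif l (up r (p * q))) (hm : MC L l),
      Quotient.mk (stp H hH) (A.lift l hm) = (op H hH hL hq)^[p] (op H hH hL hp (Quotient.mk (stp H hH) A)) := by
    intro p q hp hq r N l hl hm
    obtain ⟨M, a, ha⟩ := exists_unif' (up r p) fun j => Nat.pos_of_ne_zero (sm_up hL r hp j).1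
    have hdiv : ∀ i, up r p i ∣ up r (p * q) i := by
      intro i
      by_cases h : i = r
      · subst h; simp
      · simp [up, h]
    have hla := hl.div ha hdiv
    have hM : M + 1 = A.n + p := by rw [ha.card]; exact sum_up r p
    have hN1 : N + 1 = A.n + p * q := by rw [hl.card]; exact sum_up r (p * q)
    set B := A.lift a ⟨_, ha, sm_up hL r hp⟩ with hB
    have hSp : Sp p A B := ⟨hp, r, a, ha, rfl⟩
    have hd' : ∀ j : Fin M, up r (p * q) (rt a j) / up r p (rt a j) = 1 ∨
        up r (p * q) (rt a j) / up r p (rt a j) = q := by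
      intro j
      by_cases hj : rt a j = r
      · right; rw [hj]; simp [(hL p hp).pos]
      · left; simp [up, hj]
    have hm' : MC L (l.trans a.symm) := ⟨_, hla, fun j => by
      rcases hd' j with h | h
      · rw [h]; exact Sm.one L
      · rw [h]; exact Sm.prime hL hq⟩
    have hN : N = B.n + p * (q - 1) := by
      have h1 : B.n = M := rfl
      have hq2 := (hL q hq).two_le
      have h2 : p * (q - 1) + p = p * q := by
        obtain ⟨q', rfl⟩ : ∃ q', q = q' + 1 := ⟨q - 1, by omega⟩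
        simp; ring
      have hp2 := (hL p hp).two_le
      omega
    have h1 := chain H hH hL hq p B (l.trans a.symm) _ hla hd' hN hm'
    rw [op_eq H hH hL hp hSp, ← h1]
    congr 1
    simp only [NT.lift, NT.mk.injEq, heq_eq_eq, true_and]
    exact Equiv.ext fun z => by
      change A.E (l z) = A.E (a (a.symm (l z)))
      rw [Equiv.apply_symm_apply]
  set r : Fin A.n := ⟨0, A.pos⟩
  have hsm : ∀ i, Sm L (up r (p * q) i) := by
    intro i
    by_cases h : i = r
    · subst h; simpa using (Sm.prime hL hp).mul (Sm.prime hL hq)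
    · simpa [up, h] using Sm.one L
  obtain ⟨N, l, hl⟩ := exists_unif' (up r (p * q)) fun i => Nat.pos_of_ne_zero (hsm i).1
  have hm : MC L l := ⟨_, hl, hsm⟩
  rw [← key hp hq r l hl hm, ← key hq hp r l (by simpa only [mul_comm] using hl) hm]

end

end Pool.Agent.W2helper9.CT
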