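import Pool.Agent.W2helper9.CT.Ext

/-!
# The extension theorem
-/

set_option autoImplicit false

namespace Pool.Agent.W2helper9.CT

open Function

variable {L : Finset ℕ}

section

variable {n : ℕ} {K : Type*} [Group K] (Φ : Fun L n K) (φ : Car L (n + 1) → K) (x0 : Car L (n + 1))

open Classical in
/-- the value on the natural maps which are not relabellings. -/
noncomputable def v1 {m : ℕ} (E : X (n + 1) ≃ X m) : K :=
  if h : ∃ (x : Car L (n + 1)) (D : X x.cm ≃ X m), NM L D ∧ E = x.ce.trans D then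
    Φ.F h.choose_spec.choose * φ h.choose else 1

/-- the value on the natural maps with `n + 1` pieces. -/
noncomputable def v0 {m : ℕ} (E : X (n + 1) ≃ X m) : K :=
  if h : m = n + 1 then (φ x0)⁻¹ * v1 Φ φ (((h ▸ E : X (n + 1) ≃ X (n + 1))).trans x0.ce) else v1 Φ φ E

/-- the extension. -/
noncomputable def v {N m : ℕ} (E : X N ≃ X m) : K :=
  if h : N = n + 1 then v0 Φ φ x0 (h ▸ E : X (n + 1) ≃ X m) else Φ.F E

lemma v_low {N m : ℕ} (E : X N ≃ X m) (h : N ≤ n) : v Φ φ x0 E = Φ.F E := by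
  rw [v, dif_neg (by omega)]

lemma v_low' {N m : ℕ} (E : X N ≃ X m) (h : N ≠ n + 1) : v Φ φ x0 E = Φ.F E := by
  rw [v, dif_neg h]

lemma v_mid {m : ℕ} (E : X (n + 1) ≃ X m) (h : m ≠ n + 1) : v Φ φ x0 E = v1 Φ φ E := by
  rw [v, dif_pos rfl, v0, dif_neg h]

lemma v_top (E : X (n + 1) ≃ X (n + 1)) : v Φ φ x0 E = (φ x0)⁻¹ * v1 Φ φ (E.trans x0.ce) := by
  rw [v, dif_pos rfl, v0, dif_pos rfl]

variable (hφ : ∀ x y, Dj x y → ∀ {M : ℕ} (P : X (n + 1) ≃ X M), MC L P → Has P x.x → Has P y.x →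
      Φ.F (x.ce.symm.trans P) * φ x = Φ.F (y.ce.symm.trans P) * φ y)

include hφ

lemma v1_eq (hL : ∀ q ∈ L, q.Prime) (h2 : 2 ∈ L) {B : ℕ} (hB : ∀ q ∈ L, q ≤ B)
    (hn : 2 * (B * B) + 4 ≤ n) {m : ℕ} (x : Car L (n + 1)) (D : X x.cm ≃ X m) (hD : NM L D) :
    v1 Φ φ (x.ce.trans D) = Φ.F D * φ x := by
  have h : ∃ (y : Car L (n + 1)) (D' : X y.cm ≃ X m), NM L D' ∧ x.ce.trans D = y.ce.trans D' := ⟨x, D, hD, rfl⟩
  rw [v1, dif_pos h]
  exact (val_unique Φ φ hφ hL h2 hB hn _ x h.choose D h.choose_spec.choose (le_refl _) hD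
    h.choose_spec.choose_spec.1 h.choose_spec.choose_spec.2).symm

omit hφ in
lemma NM.last' (hL : ∀ q ∈ L, q.Prime) {N m : ℕ} {E : X N ≃ X m} (hE : NM L E) (hm : m ≠ N) :
    ∃ (x : Car L N) (D : X x.cm ≃ X m), NM L D ∧ E = x.ce.trans D := by
  rcases hE.last hL with ⟨σ, rfl⟩ | h
  · exact absurd (by simpa using (Fintype.card_congr σ).symm) hm
  · exact h

lemma v1_trans (hL : ∀ q ∈ L, q.Prime) (h2 : 2 ∈ L) {B : ℕ} (hB : ∀ q ∈ L, q ≤ B)
    (hn : 2 * (B * B) + 4 ≤ n) {m l : ℕ} (E : X (n + 1) ≃ X m) (g : X m ≃ X l) (hE : NM L E) (hg : NM L g)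
    (hm : m ≠ n + 1) : v1 Φ φ (E.trans g) = Φ.F g * v1 Φ φ E := by
  obtain ⟨x, D, hD, rfl⟩ := NM.last' hL hE hm
  have h1 : (x.ce.trans D).trans g = x.ce.trans (D.trans g) := rfl
  rw [h1, v1_eq Φ φ hφ hL h2 hB hn x _ (hD.trans hg), v1_eq Φ φ hφ hL h2 hB hn x D hD,
    Φ.map D g (Nat.lt_succ_iff.1 x.cm_lt) hD hg, mul_assoc]

lemma v1_perm_dj (hL : ∀ q ∈ L, q.Prime) (h2 : 2 ∈ L) {B : ℕ} (hB : ∀ q ∈ L, q ≤ B)
    (hn : 2 * (B * B) + 4 ≤ n) (S : X (n + 1) ≃ X (n + 1)) (hS : NM L S) (x y : Car L (n + 1)) (h : Dj x y) :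
    (φ x)⁻¹ * v1 Φ φ (S.trans x.ce) = (φ y)⁻¹ * v1 Φ φ (S.trans y.ce) := by
  set P := pd x y h with hP
  have hx : x.cm ≠ n + 1 := x.cm_lt.ne
  have hy : y.cm ≠ n + 1 := y.cm_lt.ne
  have hc := ((pd_mc hL x y h).fac x (pd_has_left x y h)).nm
  have hc' := ((pd_mc hL x y h).fac y (pd_has_right x y h)).nm
  have e1 := v1_trans Φ φ hφ hL h2 hB hn (S.trans x.ce) (x.ce.symm.trans P) (hS.trans (x.nm hL)) hc hx
  have e2 := v1_trans Φ φ hφ hL h2 hB hn (S.trans y.ce) (y.ce.symm.trans P) (hS.trans (y.nm hL)) hc' hy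
  have e3 : (S.trans x.ce).trans (x.ce.symm.trans P) = S.trans P := Equiv.ext fun z => by simp
  have e4 : (S.trans y.ce).trans (y.ce.symm.trans P) = S.trans P := Equiv.ext fun z => by simp
  rw [e3] at e1
  rw [e4] at e2
  have e5 := hφ x y h P (pd_mc hL x y h) (pd_has_left x y h) (pd_has_right x y h)
  have e6 : v1 Φ φ (S.trans x.ce) = (Φ.F (x.ce.symm.trans P))⁻¹ * v1 Φ φ (S.trans P) := by
    rw [e1]; group
  have e7 : v1 Φ φ (S.trans y.ce) = (Φ.F (y.ce.symm.trans P))⁻¹ * v1 Φ φ (S.trans P) := by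
    rw [e2]; group
  rw [e6, e7, ← mul_assoc, ← mul_assoc, ← mul_inv_rev, ← mul_inv_rev, e5]

/-- the extension theorem, first form. -/
theorem map_v (hL : ∀ q ∈ L, q.Prime) (h2 : 2 ∈ L) {B : ℕ} (hB : ∀ q ∈ L, q ≤ B)
    (hn : 2 * (B * B) + 4 ≤ n) (hn' : 5 * B + 2 ≤ n + 1) {N m l : ℕ} (f : X N ≃ X m) (g : X m ≃ X l)
    (hN : N ≤ n + 1) (hf : NM L f) (hg : NM L g) :
    v Φ φ x0 (f.trans g) = v Φ φ x0 g * v Φ φ x0 f := by
  have hm := hf.le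
  have hl := hg.le
  by_cases h1 : N = n + 1
  · subst h1
    have perm_all : ∀ (S : X (n + 1) ≃ X (n + 1)), NM L S → ∀ x, (φ x)⁻¹ * v1 Φ φ (S.trans x.ce) =
        (φ x0)⁻¹ * v1 Φ φ (S.trans x0.ce) := by
      intro S hS x
      obtain ⟨w, hw1, hw2, -, -, -⟩ := exists_five h2 hB hn' x x0 x0 x0 x0
      rw [← v1_perm_dj Φ φ hφ hL h2 hB hn S hS w x hw1, v1_perm_dj Φ φ hφ hL h2 hB hn S hS w x0 hw2]
    have m2 : ∀ {k : ℕ} (S : X (n + 1) ≃ X (n + 1)) (E : X (n + 1) ≃ X k), NM L S → NM L E → k ≠ n + 1 →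
        v1 Φ φ (S.trans E) = v1 Φ φ E * ((φ x0)⁻¹ * v1 Φ φ (S.trans x0.ce)) := by
      intro k S E hS hE hk
      obtain ⟨x, D, hD, rfl⟩ := NM.last' hL hE hk
      have e1 : S.trans (x.ce.trans D) = (S.trans x.ce).trans D := rfl
      rw [e1, v1_trans Φ φ hφ hL h2 hB hn (S.trans x.ce) D (hS.trans (x.nm hL)) hD x.cm_lt.ne,
        v1_eq Φ φ hφ hL h2 hB hn x D hD, ← perm_all S hS x]
      group
    by_cases h3 : m = n + 1
    · subst h3
      by_cases h4 : l = n + 1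
      · subst h4
        rw [v_top, v_top, v_top]
        have e1 : (f.trans g).trans x0.ce = f.trans (g.trans x0.ce) := rfl
        rw [e1, m2 f (g.trans x0.ce) hf (hg.trans (x0.nm hL)) x0.cm_lt.ne]
        group
      · rw [v_mid _ _ _ _ h4, v_mid _ _ _ _ h4, v_top, m2 f g hf hg h4]
    · have h4 : l ≠ n + 1 := by omega
      rw [v_mid _ _ _ _ h4, v_mid _ _ _ _ h3, v_low' _ _ _ _ h3,
        v1_trans Φ φ hφ hL h2 hB hn f g hf hg h3]
  · rw [v_low' _ _ _ _ h1, v_low' _ _ _ _ h1, v_low _ _ _ _ (by omega), Φ.map f g (by omega) hf hg]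

end

/-- the extension theorem. -/
theorem extend (hL : ∀ q ∈ L, q.Prime) (h2 : 2 ∈ L) {B : ℕ} (hB : ∀ q ∈ L, q ≤ B) {n : ℕ}
    (hn : 2 * (B * B) + 5 * B + 4 ≤ n) {K : Type*} [Group K] (Φ : Fun L n K) :
    ∃ Φ' : Fun L (n + 1) K, ∀ {N m : ℕ} (f : X N ≃ X m), N ≤ n → Φ'.F f = Φ.F f := by
  obtain ⟨φ, hφ⟩ := exists_phi hL h2 hB Φ (by omega)
  obtain ⟨x0, -, -⟩ := exists_pair h2 (∅ : Finset (Fin (n + 1))) (by simp; omega)
  refine ⟨⟨fun f => v Φ φ x0 f, fun f g hN hf hg => map_v Φ φ x0 hφ hL h2 hB (by omega) (by omega) f g hN hf hg⟩,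
    fun f hN => v_low Φ φ x0 f hN⟩

/-- functors on all the natural maps. -/
theorem extend_all (hL : ∀ q ∈ L, q.Prime) (h2 : 2 ∈ L) {B : ℕ} (hB : ∀ q ∈ L, q ≤ B) {n : ℕ}
    (hn : 2 * (B * B) + 5 * B + 4 ≤ n) {K : Type*} [Group K] (Φ : Fun L n K) :
    ∃ Ψ : ∀ {N m : ℕ}, (X N ≃ X m) → K,
      (∀ {N m l : ℕ} (f : X N ≃ X m) (g : X m ≃ X l), NM L f → NM L g → Ψ (f.trans g) = Ψ g * Ψ f) ∧
      ∀ {N m : ℕ} (f : X N ≃ X m), N ≤ n → Ψ f = Φ.F f := by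
  have step : ∀ k, ∀ Θ : Fun L (n + k) K, ∃ Θ' : Fun L (n + (k + 1)) K,
      ∀ {N m : ℕ} (f : X N ≃ X m), N ≤ n + k → Θ'.F f = Θ.F f := fun k Θ =>
    extend hL h2 hB (by omega) Θ
  choose st hst using step
  let seq : ∀ k, Fun L (n + k) K := fun k => Nat.rec (motive := fun k => Fun L (n + k) K) Φ (fun k Θ => st k Θ) k
  have hseq : ∀ k, seq (k + 1) = st k (seq k) := fun k => rfl
  have hs : ∀ k j, ∀ {N m : ℕ} (f : X N ≃ X m), N ≤ n + k → (seq (k + j)).F f = (seq k).F f := by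
    intro k j N m f hN
    induction j with
    | zero => rfl
    | succ j ih =>
      have : seq (k + (j + 1)) = st (k + j) (seq (k + j)) := rfl
      rw [this, hst (k + j) (seq (k + j)) f (by omega), ih]
  refine ⟨fun {N m} f => (seq N).F f, fun {N m l} f g hf hg => ?_, fun {N m} f hN => ?_⟩
  · have hm := hf.le
    obtain ⟨j, rfl⟩ := Nat.exists_eq_add_of_le hm
    simp only
    rw [(seq (m + j)).map f g (by omega) hf hg, hs m j g (by omega)]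
  · have h3 : ∀ j, (seq j).F f = Φ.F f := by
      intro j
      induction j with
      | zero => rfl
      | succ j ih => rw [hseq j, hst j (seq j) f (by omega), ih]
    exact h3 N

end Pool.Agent.W2helper9.CT
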